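import Pool.Agent.Helper27.SC.StP

set_option autoImplicit false

/-!
# Project SC: conclusion from the modules SGN and PROF
-/

open NumberField
open Pool.Agent.Results.MP_f07b9f_nt.Extremal (P2 MaxInt fam Theta IsExtremal CoprimeFree part3)

universe u

namespace Pool.Agent.Helper27.SC

variable {K : Type u} [Field K] [NumberField K]

theorem P2_fin : (P2 K).Finite := Pool.Agent.Results.MP_f07b9f_nt.Extremal.P2_finite K

/-- (1): two families with different profiles -/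
theorem less (hSgn : StSgn.{u}) (hProf : StProf.{u}) (hne : (P2 K).Nonempty)
    {H H' : Set (Set (Ideal (𝓞 K)))} (hH : MaxInt K H) (hH' : MaxInt K H')
    (hp : ∃ j, prof H j ≠ prof H' j) (x₀ : ℝ) :
    ∃ x, x₀ ≤ x ∧ 0 ≤ x ∧ (fam K H x).ncard < (fam K H' x).ncard := by
  obtain ⟨a1, a2, a3, a4⟩ := hProf K hne H hH
  obtain ⟨b1, b2, b3, -⟩ := hProf K hne H' hH'
  set k := (P2 K).ncard
  have hint : ∀ H : Set (Set (Ideal (𝓞 K))), ∀ i, ∃ z : ℤ, coef H i = z := by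
    intro H i
    refine ⟨∑ j ∈ Finset.range (i + 1),
      (-1) ^ (i - j) * ((((P2 K).ncard - j).choose (i - j) : ℕ) : ℤ) * ((prof H j : ℕ) : ℤ), ?_⟩
    unfold coef
    push_cast
    rfl
  obtain ⟨x, hx, hD⟩ := hSgn K k (fun i => coef H i - coef H' i)
    (fun i => by
      obtain ⟨z, hz⟩ := hint H i
      obtain ⟨z', hz'⟩ := hint H' i
      exact ⟨z - z', by push_cast; rw [← hz, ← hz']⟩)
    (by
      obtain ⟨i, hi, hne'⟩ := a4 H' hH' hp
      exact ⟨i, hi, sub_ne_zero.2 hne'⟩)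
    (by rw [Finset.sum_sub_distrib, a2, b2, sub_self])
    (by
      have : ∀ i ∈ Finset.range (k + 1), (coef H i - coef H' i) / 2 ^ i
          = coef H i / 2 ^ i - coef H' i / 2 ^ i := fun i _ => by ring
      rw [Finset.sum_congr rfl this, Finset.sum_sub_distrib, a3, b3, sub_self])
    (max x₀ 0)
  have hx0 : 0 ≤ x := le_trans (le_max_right _ _) hx
  refine ⟨x, le_trans (le_max_left _ _) hx, hx0, ?_⟩
  have e : D K k (fun i => coef H i - coef H' i) x = D K k (coef H) x - D K k (coef H') x := by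
    unfold D
    rw [← Finset.sum_sub_distrib]
    exact Finset.sum_congr rfl fun i _ => by ring
  rw [e, ← a1 x hx0, ← b1 x hx0, sub_neg] at hD
  exact_mod_cast hD

/-- the star of a prime -/
def star (η : Ideal (𝓞 K)) : Set (Set (Ideal (𝓞 K))) := {S | S ⊆ P2 K ∧ η ∈ S}

theorem star_maxInt {η : Ideal (𝓞 K)} (hη : η ∈ P2 K) : MaxInt K (star η) := by
  refine ⟨fun S hS => hS.1, fun S hS T hT => ⟨η, hS.2, hT.2⟩, fun S hS => ?_⟩
  by_cases h : η ∈ S
  · exact Or.inl ⟨hS, h⟩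
  · exact Or.inr ⟨Set.sdiff_subset, hη, h⟩

theorem star_fam {η : Ideal (𝓞 K)} (hη : η ∈ P2 K) (x : ℝ) :
    fam K (star η) x = {I ∈ Theta K x | η ∣ I} := by
  ext I
  constructor
  · rintro ⟨h1, -, h2⟩
    exact ⟨h1, h2.2⟩
  · rintro ⟨h1, h2⟩
    exact ⟨h1, fun p hp => hp.1, hη, h2⟩

/-- at least two of the primes in `B` -/
def maj (B : Set (Ideal (𝓞 K))) : Set (Set (Ideal (𝓞 K))) := {S | S ⊆ P2 K ∧ 2 ≤ (S ∩ B).ncard}

theorem maj_maxInt {B : Set (Ideal (𝓞 K))} (hB : B ⊆ P2 K) (h3 : B.ncard = 3) :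
    MaxInt K (maj B) := by
  have hBf : B.Finite := P2_fin.subset hB
  refine ⟨fun S hS => hS.1, fun S hS T hT => ?_, fun S hS => ?_⟩
  · by_contra hcon
    rw [Set.not_nonempty_iff_eq_empty] at hcon
    have hdisj : Disjoint (S ∩ B) (T ∩ B) := by
      rw [Set.disjoint_iff_inter_eq_empty]
      ext p
      simp only [Set.mem_inter_iff, Set.mem_empty_iff_false, iff_false, not_and]
      rintro ⟨h1, h2⟩ h3
      exact absurd (show p ∈ S ∩ T from ⟨h1, h3⟩) (by rw [hcon]; exact fun h => h)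
    have h1 : ((S ∩ B) ∪ (T ∩ B)).ncard ≤ B.ncard :=
      Set.ncard_le_ncard (Set.union_subset Set.inter_subset_right Set.inter_subset_right) hBf
    rw [Set.ncard_union_eq hdisj (hBf.subset Set.inter_subset_right)
      (hBf.subset Set.inter_subset_right)] at h1
    have := hS.2; have := hT.2
    omega
  · by_cases h : 2 ≤ (S ∩ B).ncard
    · exact Or.inl ⟨hS, h⟩
    · refine Or.inr ⟨Set.sdiff_subset, ?_⟩
      have e : (P2 K \ S) ∩ B = B \ (S ∩ B) := by
        ext p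
        simp only [Set.mem_inter_iff, Set.mem_sdiff]
        constructor
        · rintro ⟨⟨_, h1⟩, h2⟩
          exact ⟨h2, fun h => h1 h.1⟩
        · rintro ⟨h1, h2⟩
          exact ⟨⟨hB h1, fun h => h2 ⟨h, h1⟩⟩, h1⟩
      rw [e, Set.ncard_sdiff Set.inter_subset_right (hBf.subset Set.inter_subset_right)]
      omega

theorem prof_star_one {η : Ideal (𝓞 K)} (hη : η ∈ P2 K) : prof (star η) 1 ≠ 0 := by
  have hf : {S ∈ star η | S.ncard = 1}.Finite := by
    refine (P2_fin (K := K)).finite_subsets.subset ?_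
    rintro S ⟨hS, -⟩
    exact hS.1
  unfold prof
  exact ((Set.ncard_pos hf).2
    ⟨{η}, ⟨Set.singleton_subset_iff.2 hη, rfl⟩, Set.ncard_singleton η⟩).ne'

theorem prof_one_ne {H : Set (Set (Ideal (𝓞 K)))} (hH : MaxInt K H) {η : Ideal (𝓞 K)}
    (hη : {η} ∈ H) : prof H 1 ≠ 0 := by
  have hf : {S ∈ H | S.ncard = 1}.Finite := by
    refine (P2_fin (K := K)).finite_subsets.subset ?_
    rintro S ⟨hS, -⟩
    exact hH.1 S hS
  unfold prof
  exact ((Set.ncard_pos hf).2 ⟨{η}, hη, Set.ncard_singleton η⟩).ne'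

theorem prof_one_eq {H : Set (Set (Ideal (𝓞 K)))} (h : ∀ η, ({η} : Set (Ideal (𝓞 K))) ∉ H) :
    prof H 1 = 0 := by
  unfold prof
  have : {S ∈ H | S.ncard = 1} = ∅ := by
    ext S
    simp only [Set.mem_ofPred_eq, Set.mem_empty_iff_false, iff_false, not_and]
    intro hS h1
    obtain ⟨η, rfl⟩ := Set.ncard_eq_one.1 h1
    exact h η hS
  rw [this, Set.ncard_empty]

theorem maj_no_singleton (B : Set (Ideal (𝓞 K))) (η : Ideal (𝓞 K)) :
    ({η} : Set (Ideal (𝓞 K))) ∉ maj B := by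
  rintro ⟨-, h⟩
  have : (({η} : Set (Ideal (𝓞 K))) ∩ B).ncard ≤ ({η} : Set (Ideal (𝓞 K))).ncard :=
    Set.ncard_le_ncard Set.inter_subset_left (Set.finite_singleton η)
  rw [Set.ncard_singleton] at this
  omega

/-- every family has a competitor with another profile -/
theorem competitor (hK : 3 ≤ (P2 K).ncard) {H : Set (Set (Ideal (𝓞 K)))} (hH : MaxInt K H) :
    ∃ H', MaxInt K H' ∧ ∃ j, prof H j ≠ prof H' j := by
  by_cases h : ∃ η, ({η} : Set (Ideal (𝓞 K))) ∈ H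
  · obtain ⟨η, hη⟩ := h
    obtain ⟨B, hB, hB3⟩ := Set.exists_subset_card_eq hK
    refine ⟨maj B, maj_maxInt hB hB3, 1, ?_⟩
    rw [prof_one_eq (maj_no_singleton B)]
    exact prof_one_ne hH hη
  · push Not at h
    have hne : (P2 K).Nonempty := Set.nonempty_of_ncard_ne_zero (by omega)
    obtain ⟨η, hη⟩ := hne
    refine ⟨star η, star_maxInt hη, 1, ?_⟩
    rw [prof_one_eq h]
    exact (prof_star_one hη).symm

theorem fam_cf {H : Set (Set (Ideal (𝓞 K)))} (hH : MaxInt K H) (x : ℝ) :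
    CoprimeFree (fam K H x) := by
  rintro I ⟨-, hI⟩ J ⟨-, hJ⟩ -
  obtain ⟨p, hp1, hp2⟩ := hH.2.1 _ hI _ hJ
  exact ⟨p, hp1.1.1, hp1.2, hp2.2⟩

theorem fam_sub (H : Set (Set (Ideal (𝓞 K)))) (x : ℝ) : fam K H x ⊆ Theta K x := fun _ h => h.1

theorem not_extremal {H H' : Set (Set (Ideal (𝓞 K)))} (hH' : MaxInt K H') {x : ℝ}
    (h : (fam K H x).ncard < (fam K H' x).ncard) : ¬ IsExtremal K x (fam K H x) := fun he =>
  absurd (he.2.2 _ (fam_sub H' x) (fam_cf hH' x)) (not_le.2 h)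

theorem main (hSgn : StSgn.{u}) (hProf : StProf.{u}) (hK : 3 ≤ (P2 K).ncard) :
    (∀ H H', MaxInt K H → MaxInt K H' →
      (∃ j, {S ∈ H | S.ncard = j}.ncard ≠ {S ∈ H' | S.ncard = j}.ncard) →
      ∀ x₀ : ℝ, ∃ x, x₀ ≤ x ∧ (fam K H x).ncard < (fam K H' x).ncard) ∧
    (∀ H, MaxInt K H → ∀ x₀ : ℝ, ∃ x, x₀ ≤ x ∧ ¬ IsExtremal K x (fam K H x)) ∧
    ((P2 K).ncard = 3 → ∀ x₀ : ℝ,
      (∃ x, x₀ ≤ x ∧ ∀ A, IsExtremal K x A ↔ ∃ η ∈ P2 K, A = {I ∈ Theta K x | η ∣ I}) ∧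
      (∃ x, x₀ ≤ x ∧ ∀ A, IsExtremal K x A ↔
        A = {I ∈ Theta K x | 2 ≤ {p ∈ P2 K | p ∣ I}.ncard})) := by
  have hne : (P2 K).Nonempty := Set.nonempty_of_ncard_ne_zero (by omega)
  refine ⟨fun H H' hH hH' hp x₀ => ?_, fun H hH x₀ => ?_, fun h3 x₀ => ?_⟩
  · obtain ⟨x, hx, -, h⟩ := less hSgn hProf hne hH hH' hp x₀
    exact ⟨x, hx, h⟩
  · obtain ⟨H', hH', hp⟩ := competitor hK hH
    obtain ⟨x, hx, -, h⟩ := less hSgn hProf hne hH hH' hp x₀
    exact ⟨x, hx, not_extremal hH' h⟩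
  · obtain ⟨η, hη⟩ := hne
    have hmaj := maj_maxInt (K := K) (subset_refl _) h3
    have hp : ∃ j, prof (star η) j ≠ prof (maj (P2 K)) j :=
      ⟨1, by rw [prof_one_eq (maj_no_singleton _)]; exact prof_star_one hη⟩
    have hmf : ∀ x, fam K (maj (P2 K)) x = {I ∈ Theta K x | 2 ≤ {p ∈ P2 K | p ∣ I}.ncard} := by
      intro x
      ext I
      constructor
      · rintro ⟨h1, -, h2⟩
        refine ⟨h1, ?_⟩
        rwa [Set.inter_eq_left.2 (fun p hp => hp.1)] at h2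
      · rintro ⟨h1, h2⟩
        refine ⟨h1, fun p hp => hp.1, ?_⟩
        rwa [Set.inter_eq_left.2 (fun p hp => hp.1)]
    obtain ⟨x₁, hx₁⟩ := Filter.eventually_atTop.1 (part3 K h3)
    constructor
    · obtain ⟨x, hx, -, h⟩ := less hSgn hProf ⟨η, hη⟩ hmaj (star_maxInt hη)
        (by obtain ⟨j, hj⟩ := hp; exact ⟨j, hj.symm⟩) (max x₀ x₁)
      have hcl := hx₁ x (le_trans (le_max_right _ _) hx)
      refine ⟨x, le_trans (le_max_left _ _) hx, fun A => ?_⟩
      have hno : ¬ (Pool.Agent.Results.MP_f07b9f_nt.Extremal.Jc K (x / 2)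
          + 2 * Pool.Agent.Results.MP_f07b9f_nt.Extremal.Jc K (x / 8)
          ≤ 3 * Pool.Agent.Results.MP_f07b9f_nt.Extremal.Jc K (x / 4)) := by
        intro hle
        have := (hcl {I ∈ Theta K x | 2 ≤ {p ∈ P2 K | p ∣ I}.ncard}).2 (Or.inr ⟨hle, rfl⟩)
        rw [← hmf] at this
        exact not_extremal (star_maxInt hη) h this
      rw [hcl A]
      constructor
      · rintro (⟨-, h⟩ | ⟨h, -⟩)
        · exact h
        · exact absurd h hno
      · intro h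
        exact Or.inl ⟨by omega, h⟩
    · obtain ⟨x, hx, -, h⟩ := less hSgn hProf ⟨η, hη⟩ (star_maxInt hη) hmaj hp (max x₀ x₁)
      have hcl := hx₁ x (le_trans (le_max_right _ _) hx)
      refine ⟨x, le_trans (le_max_left _ _) hx, fun A => ?_⟩
      have hno : ¬ (3 * Pool.Agent.Results.MP_f07b9f_nt.Extremal.Jc K (x / 4)
          ≤ Pool.Agent.Results.MP_f07b9f_nt.Extremal.Jc K (x / 2)
          + 2 * Pool.Agent.Results.MP_f07b9f_nt.Extremal.Jc K (x / 8)) := by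
        intro hle
        have := (hcl {I ∈ Theta K x | η ∣ I}).2 (Or.inl ⟨hle, η, hη, rfl⟩)
        rw [← star_fam hη] at this
        exact not_extremal hmaj h this
      rw [hcl A]
      constructor
      · rintro (⟨h, -⟩ | ⟨-, h⟩)
        · exact absurd h hno
        · exact h
      · intro h
        exact Or.inr ⟨by omega, h⟩

end Pool.Agent.Helper27.SC
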