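import Pool.Agent.Helper27.SC.St

/-!
# SC module AVG: the smooth average of `D`
-/

set_option autoImplicit false

open scoped ContDiff nonZeroDivisors Topology
open NumberField MeasureTheory Set

universe u

namespace Pool.Agent.Helper27.SC

/-- the bump function -/
private noncomputable def fb : ContDiffBump (3 / 2 : ℝ) := ⟨1 / 2, 1, by norm_num, by norm_num⟩

private theorem fb_cd : ContDiff ℝ ∞ fb := fb.contDiff

private theorem fb_one {u : ℝ} (h1 : 1 ≤ u) (h2 : u ≤ 2) : fb u = 1 := by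
  refine fb.one_of_mem_closedBall ?_
  rw [Metric.mem_closedBall, Real.dist_eq, abs_le]
  change -(1 / 2 : ℝ) ≤ _ ∧ _ ≤ (1 / 2 : ℝ)
  constructor <;> linarith

private theorem fb_supp {u : ℝ} (h : fb u ≠ 0) : 1 / 2 ≤ u ∧ u ≤ 4 := by
  by_contra hc
  refine h (fb.zero_of_le_dist ?_)
  rw [Real.dist_eq]
  change (1 : ℝ) ≤ _
  rcases not_and_or.1 hc with h1 | h1
  · have := neg_le_abs (u - 3 / 2)
    linarith [not_le.1 h1]
  · have := le_abs_self (u - 3 / 2)
    linarith [not_le.1 h1]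

/-- `φ(u)/u` -/
private noncomputable def ps (u : ℝ) : ℝ := fb u / u

private theorem ps_zero {u : ℝ} (h : u ≤ 1 / 2 ∨ 4 ≤ u) : ps u = 0 := by
  have h1 : fb u = 0 := by
    refine fb.zero_of_le_dist ?_
    rw [Real.dist_eq]
    change (1 : ℝ) ≤ _
    rcases h with h1 | h1
    · have := neg_le_abs (u - 3 / 2)
      linarith
    · have := le_abs_self (u - 3 / 2)
      linarith
  rw [ps, h1, zero_div]

private theorem ps_cd : ContDiff ℝ ∞ ps := by
  rw [contDiff_iff_contDiffAt]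
  intro u
  by_cases hu : u = 0
  · subst hu
    have h1 : ps =ᶠ[𝓝 0] fun _ => (0 : ℝ) := by
      have h2 : Iio (1 / 2 : ℝ) ∈ 𝓝 (0 : ℝ) := Iio_mem_nhds (by norm_num)
      filter_upwards [h2] with v hv
      exact ps_zero (Or.inl (le_of_lt hv))
    exact contDiffAt_const.congr_of_eventuallyEq h1
  · exact fb_cd.contDiffAt.div contDiffAt_id hu

private theorem ps_cont : Continuous ps := ps_cd.continuous

private theorem ps_cs : HasCompactSupport ps := by
  refine HasCompactSupport.intro (isCompact_Icc (a := (0 : ℝ)) (b := 5)) fun x hx => ?_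
  refine ps_zero ?_
  by_contra hc
  push Not at hc
  exact hx ⟨by linarith [hc.1], by linarith [hc.2]⟩

private theorem ps_int : Integrable ps := ps_cont.integrable_of_hasCompactSupport ps_cs

/-- `W v = ∫_v^∞ φ(u)/u du` -/
private noncomputable def W (v : ℝ) : ℝ := ∫ u in Ioi v, ps u

private theorem W_four {v : ℝ} (h : 4 ≤ v) : W v = 0 := by
  rw [W]
  refine setIntegral_eq_zero_of_forall_eq_zero fun x hx => ps_zero (Or.inr (h.trans (le_of_lt hx)))

private theorem W_eq (v : ℝ) : W v = -∫ u in (4 : ℝ)..v, ps u := by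
  have h1 := intervalIntegral.integral_Ioi_sub_Ioi' (a := (4 : ℝ)) (b := v) (f := ps) (μ := volume)
    ps_int.integrableOn ps_int.integrableOn
  have h2 : (∫ u in Ioi (4 : ℝ), ps u) = 0 := W_four le_rfl
  rw [← h1, h2, W]
  ring

private theorem W_half {v : ℝ} (h : v ≤ 1 / 2) : W v = W (1 / 2) := by
  have h1 := intervalIntegral.integral_Ioi_sub_Ioi (a := v) (b := 1 / 2) (f := ps) (μ := volume)
    ps_int.integrableOn h
  have h2 : (∫ u in v..(1 / 2), ps u) = 0 := by
    rw [intervalIntegral.integral_of_le h]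
    exact setIntegral_eq_zero_of_forall_eq_zero fun x hx => ps_zero (Or.inl hx.2)
  rw [h2] at h1
  exact sub_eq_zero.1 h1

private theorem W_cd : ContDiff ℝ ∞ W := by
  have h0 : W = fun v => -∫ u in (4 : ℝ)..v, ps u := funext W_eq
  have hd : ∀ v, HasDerivAt W (-ps v) v := fun v => by
    rw [h0]
    exact ((ps_cont.integral_hasStrictDerivAt 4 v).hasDerivAt).neg
  rw [contDiff_infty_iff_deriv]
  refine ⟨fun v => (hd v).differentiableAt, ?_⟩
  have h1 : deriv W = fun v => -ps v := funext fun v => (hd v).deriv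
  rw [h1]
  exact ps_cd.neg

/-- the weight -/
private noncomputable def wt (m : ℕ) (c : ℕ → ℝ) (v : ℝ) : ℝ :=
  ∑ i ∈ Finset.range (m + 1), c i * W (2 ^ i * v)

private theorem wt_cd (m : ℕ) (c : ℕ → ℝ) : ContDiff ℝ ∞ (wt m c) := by
  unfold wt
  exact ContDiff.sum fun i _ => contDiff_const.mul (W_cd.comp (contDiff_const.mul contDiff_id))

private theorem wt_four (m : ℕ) (c : ℕ → ℝ) {v : ℝ} (h : 4 ≤ v) : wt m c v = 0 := by
  unfold wt
  refine Finset.sum_eq_zero fun i _ => ?_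
  have h1 : (1 : ℝ) ≤ 2 ^ i := one_le_pow₀ (by norm_num)
  rw [W_four (by nlinarith), mul_zero]

private theorem wt_small (m : ℕ) (c : ℕ → ℝ) (hc : ∑ i ∈ Finset.range (m + 1), c i = 0) {v : ℝ}
    (h : v ≤ (1 / 2) / 2 ^ m) : wt m c v = 0 := by
  have h1 : wt m c v = ∑ i ∈ Finset.range (m + 1), c i * W (1 / 2) := by
    unfold wt
    refine Finset.sum_congr rfl fun i hi => ?_
    have h2 : (0 : ℝ) < 2 ^ i := by positivity
    have h3 : (2 : ℝ) ^ i ≤ 2 ^ m := pow_le_pow_right₀ (by norm_num) (by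
      have := Finset.mem_range.1 hi
      omega)
    rw [W_half]
    have h4 : (2 : ℝ) ^ i * v ≤ 2 ^ i * ((1 / 2) / 2 ^ m) := mul_le_mul_of_nonneg_left h h2.le
    have h5 : (2 : ℝ) ^ i * ((1 / 2) / 2 ^ m) ≤ 2 ^ m * ((1 / 2) / 2 ^ m) :=
      mul_le_mul_of_nonneg_right h3 (by positivity)
    have h6 : (2 : ℝ) ^ m * ((1 / 2) / 2 ^ m) = 1 / 2 := by
      field_simp
    linarith
  rw [h1, ← Finset.sum_mul, hc, zero_mul]

private theorem wt_good (m : ℕ) (c : ℕ → ℝ) (hc : ∑ i ∈ Finset.range (m + 1), c i = 0) :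
    Good (wt m c) := by
  refine ⟨wt_cd m c, (1 / 2) / 2 ^ m, 4, by positivity, ?_, ?_⟩
  · have h1 : (1 : ℝ) ≤ 2 ^ m := one_le_pow₀ (by norm_num)
    rw [div_lt_iff₀ (by positivity)]
    linarith
  · intro x hx
    constructor
    · by_contra h
      exact hx (wt_small m c hc (le_of_lt (not_le.1 h)))
    · by_contra h
      exact hx (wt_four m c (le_of_lt (not_le.1 h)))

private theorem W_ion {b : ℝ} (hb : 1 ≤ b) : IntegrableOn (fun v => W (b * v)) (Ioi (0 : ℝ)) := by
  have hc : Continuous fun v => W (b * v) := W_cd.continuous.comp (continuous_const.mul continuous_id)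
  rw [← Ioc_union_Ioi_eq_Ioi (show (0 : ℝ) ≤ 4 by norm_num)]
  refine IntegrableOn.union ?_ ?_
  · exact (hc.continuousOn.integrableOn_Icc).mono_set Ioc_subset_Icc_self
  · have h1 : EqOn (fun v => W (b * v)) (fun _ => 0) (Ioi 4) := by
      intro v hv
      have hv' : (4 : ℝ) < v := hv
      exact W_four (by nlinarith)
    exact (integrableOn_congr_fun h1 measurableSet_Ioi).2 (integrable_zero _ _ _)

private theorem wt_int (m : ℕ) (c : ℕ → ℝ) (hc : ∑ i ∈ Finset.range (m + 1), c i = 0)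
    (hc2 : ∑ i ∈ Finset.range (m + 1), c i / 2 ^ i = 0) : ∫ v, wt m c v = 0 := by
  rw [← setIntegral_eq_integral_of_forall_compl_eq_zero (s := Ioi (0 : ℝ))]
  · unfold wt
    rw [integral_finset_sum]
    · have h1 : ∀ i, ∫ v in Ioi (0 : ℝ), c i * W (2 ^ i * v) = c i / 2 ^ i * ∫ v in Ioi (0 : ℝ), W v := by
        intro i
        rw [integral_const_mul, integral_comp_mul_left_Ioi (fun v => W v) 0 (by positivity), mul_zero,
          smul_eq_mul]
        ring
      simp_rw [h1]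
      rw [← Finset.sum_mul, hc2, zero_mul]
    · intro i _
      exact (W_ion (one_le_pow₀ (by norm_num))).const_mul _
  · intro x hx
    refine wt_small m c hc ?_
    have h1 : x ≤ 0 := not_lt.1 hx
    exact h1.trans (by positivity)

/-- one term -/
private theorem one_term {a Y : ℝ} (ha : 0 < a) (hY : 0 < Y) :
    ∫ y in Ioi (0 : ℝ), (Ici a).indicator (fun y => Y⁻¹ * ps (Y⁻¹ * y)) y = W (Y⁻¹ * a) := by
  rw [setIntegral_indicator measurableSet_Ici]
  have h1 : Ioi (0 : ℝ) ∩ Ici a = Ici a := by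
    ext y
    simp only [mem_inter_iff, mem_Ioi, mem_Ici]
    exact ⟨fun h => h.2, fun h => ⟨ha.trans_le h, h⟩⟩
  rw [h1, integral_Ici_eq_integral_Ioi, integral_const_mul,
    integral_comp_mul_left_Ioi ps a (inv_pos.2 hY), smul_eq_mul, inv_inv, ← mul_assoc,
    inv_mul_cancel₀ hY.ne', one_mul, W]

private theorem Jc_eq (K : Type u) [Field K] [NumberField K] (F : Finset (Ideal (𝓞 K))⁰) (B x : ℝ)
    (hF : ∀ I : (Ideal (𝓞 K))⁰, I ∈ F ↔ (Ideal.absNorm (I : Ideal (𝓞 K)) : ℝ) ≤ B) (hx : x ≤ B) :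
    (Jc K x : ℝ) = ∑ I ∈ F, if (Ideal.absNorm (I : Ideal (𝓞 K)) : ℝ) ≤ x then (1 : ℝ) else 0 := by
  classical
  rw [Finset.sum_boole]
  have h1 : {I : Ideal (𝓞 K) | I ≠ ⊥ ∧ (Ideal.absNorm I : ℝ) ≤ x} =
      (fun I : (Ideal (𝓞 K))⁰ => (I : Ideal (𝓞 K))) ''
        (↑(F.filter fun I : (Ideal (𝓞 K))⁰ => (Ideal.absNorm (I : Ideal (𝓞 K)) : ℝ) ≤ x) :
          Set (Ideal (𝓞 K))⁰) := by
    ext I
    simp only [mem_ofPred_eq, mem_image, Finset.mem_coe, Finset.mem_filter]
    constructor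
    · rintro ⟨h1, h2⟩
      exact ⟨⟨I, mem_nonZeroDivisors_iff_ne_zero.2 h1⟩, ⟨(hF _).2 (h2.trans hx), h2⟩, rfl⟩
    · rintro ⟨I', ⟨_, h2⟩, rfl⟩
      exact ⟨mem_nonZeroDivisors_iff_ne_zero.1 I'.2, h2⟩
  rw [Jc, h1, ncard_image_of_injective _ Subtype.val_injective, ncard_coe_finset]

theorem hAvg (hMain : StMain.{u}) : StAvg.{u} := by
  refine ⟨fb, fb.continuous, fun u => fb.nonneg, fun u h1 h2 => fb_one h1 h2, fun u h => fb_supp h, ?_⟩
  intro K _ _ m c hc hc2 A
  obtain ⟨C, hC, h⟩ := hMain K (wt m c) (wt_good m c hc) (wt_int m c hc hc2) A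
  refine ⟨C, hC, fun Y hY => ?_⟩
  have hY0 : 0 < Y := by linarith
  suffices h1 : ∫ y in Ioi (0 : ℝ), D K m c y * fb (y / Y) / y =
      ∑' I : (Ideal (𝓞 K))⁰, wt m c (Ideal.absNorm (I : Ideal (𝓞 K)) / Y) by
    rw [h1]
    exact h Y hY
  have hfin : {I : (Ideal (𝓞 K))⁰ | (Ideal.absNorm (I : Ideal (𝓞 K)) : ℝ) ≤ 4 * Y}.Finite := by
    refine (Ideal.finite_setOfPred_absNorm_le₀ (S := 𝓞 K) ⌊4 * Y⌋₊).subset fun I hI => ?_
    exact Nat.le_floor hI
  have hF : ∀ I : (Ideal (𝓞 K))⁰, I ∈ hfin.toFinset ↔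
      (Ideal.absNorm (I : Ideal (𝓞 K)) : ℝ) ≤ 4 * Y := fun I => by
    rw [Set.Finite.mem_toFinset]
    rfl
  set F := hfin.toFinset
  have hpos : ∀ I : (Ideal (𝓞 K))⁰, (0 : ℝ) < Ideal.absNorm (I : Ideal (𝓞 K)) := fun I => by
    have := Ideal.absNorm_pos_of_nonZeroDivisors I
    exact_mod_cast this
  rw [tsum_eq_sum (s := F)]
  · -- pointwise
    have h2 : ∀ y ∈ Ioi (0 : ℝ), D K m c y * fb (y / Y) / y =
        ∑ i ∈ Finset.range (m + 1), ∑ I ∈ F, c i *
          (Ici (2 ^ i * (Ideal.absNorm (I : Ideal (𝓞 K)) : ℝ))).indicator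
            (fun y => Y⁻¹ * ps (Y⁻¹ * y)) y := by
      intro y hy
      have hy0 : (0 : ℝ) < y := hy
      have h3 : fb (y / Y) / y = Y⁻¹ * ps (Y⁻¹ * y) := by
        rw [ps, show Y⁻¹ * y = y / Y by ring]
        field_simp
      by_cases h4 : 4 * Y < y
      · have h5 : ps (Y⁻¹ * y) = 0 := by
          refine ps_zero (Or.inr ?_)
          rw [inv_mul_eq_div, le_div_iff₀ hY0]
          exact h4.le
        rw [mul_div_assoc, h3, h5]
        simp only [mul_zero]
        symm
        refine Finset.sum_eq_zero fun i _ => Finset.sum_eq_zero fun I _ => ?_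
        by_cases h6 : y ∈ Ici (2 ^ i * (Ideal.absNorm (I : Ideal (𝓞 K)) : ℝ))
        · rw [indicator_of_mem h6, h5, mul_zero, mul_zero]
        · rw [indicator_of_notMem h6, mul_zero]
      · have h4' : y ≤ 4 * Y := not_lt.1 h4
        rw [mul_div_assoc, h3, D, Finset.sum_mul]
        refine Finset.sum_congr rfl fun i _ => ?_
        have h5 : (1 : ℝ) ≤ 2 ^ i := one_le_pow₀ (by norm_num)
        have h6 : y / 2 ^ i ≤ 4 * Y := (div_le_self hy0.le h5).trans h4'
        rw [Jc_eq K F (4 * Y) (y / 2 ^ i) hF h6, mul_assoc, Finset.sum_mul, Finset.mul_sum]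
        refine Finset.sum_congr rfl fun I _ => ?_
        by_cases h7 : (Ideal.absNorm (I : Ideal (𝓞 K)) : ℝ) ≤ y / 2 ^ i
        · have h8 : y ∈ Ici (2 ^ i * (Ideal.absNorm (I : Ideal (𝓞 K)) : ℝ)) := by
            rw [le_div_iff₀ (by positivity)] at h7
            rw [mem_Ici]
            linarith
          rw [if_pos h7, indicator_of_mem h8, one_mul]
        · have h8 : y ∉ Ici (2 ^ i * (Ideal.absNorm (I : Ideal (𝓞 K)) : ℝ)) := by
            rw [le_div_iff₀ (by positivity)] at h7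
            rw [mem_Ici]
            intro h9
            exact h7 (by linarith)
          rw [if_neg h7, indicator_of_notMem h8, zero_mul]
    have hps : Integrable (fun y => Y⁻¹ * ps (Y⁻¹ * y)) :=
      (ps_int.comp_mul_left' (inv_ne_zero hY0.ne')).const_mul _
    rw [setIntegral_congr_fun measurableSet_Ioi h2, integral_finset_sum]
    · have h9 : ∀ i ∈ Finset.range (m + 1), ∫ y in Ioi (0 : ℝ), ∑ I ∈ F, c i *
          (Ici (2 ^ i * (Ideal.absNorm (I : Ideal (𝓞 K)) : ℝ))).indicator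
            (fun y => Y⁻¹ * ps (Y⁻¹ * y)) y =
          ∑ I ∈ F, c i * W (2 ^ i * ((Ideal.absNorm (I : Ideal (𝓞 K)) : ℝ) / Y)) := by
        intro i _
        rw [integral_finset_sum]
        · refine Finset.sum_congr rfl fun I _ => ?_
          rw [integral_const_mul, one_term (mul_pos (by positivity) (hpos I)) hY0]
          congr 2
          ring
        · intro I _
          exact ((hps.indicator measurableSet_Ici).integrableOn).const_mul _
      rw [Finset.sum_congr rfl h9, Finset.sum_comm]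
      rfl
    · intro i _
      refine integrable_finset_sum _ fun I _ => ?_
      exact ((hps.indicator measurableSet_Ici).integrableOn).const_mul _
  · intro I hI
    refine wt_four m c ?_
    rw [hF, not_le] at hI
    rw [le_div_iff₀ hY0]
    exact hI.le

end Pool.Agent.Helper27.SC
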