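import Pool.Agent.Helper27.SC.St

set_option autoImplicit false

open scoped nonZeroDivisors
open NumberField NumberField.mixedEmbedding NumberField.mixedEmbedding.fundamentalCone Ideal
open NumberField.Units Submodule

universe u

namespace Pool.Agent.Helper27.SC

section
variable (K : Type u) [Field K] [NumberField K] (J : (Ideal (𝓞 K))⁰)

/-- elements of `idealSet K J` and principal ideals divisible by `J` -/
private noncomputable def e1_CLS : idealSet K J ≃
    {I : {I : (Ideal (𝓞 K))⁰ // IsPrincipal I.1} // J.1 ∣ I.1.1} × torsion K :=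
  (idealSetEquiv K J).trans
    ((Equiv.subtypeEquiv (q := fun p : {I : (Ideal (𝓞 K))⁰ // IsPrincipal I.1} × torsion K =>
        J.1 ∣ p.1.1.1) (integerSetEquiv K) (fun a => by
          rw [integerSetEquiv_apply_fst, dvd_span_singleton]
          rfl)).trans
      (Equiv.prodSubtypeFstEquivSubtypeProd
        (p := fun I : {I : (Ideal (𝓞 K))⁰ // IsPrincipal I.1} => J.1 ∣ I.1.1)))

private theorem e1n_CLS (a : idealSet K J) :
    (absNorm ((e1_CLS K J a).1.1.1 : Ideal (𝓞 K)) : ℝ) = mixedEmbedding.norm (a : mixedSpace K) := by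
  rw [← intNorm_idealSetEquiv_apply, Nat.cast_inj, intNorm, ← absNorm_span_singleton,
    ← integerSetEquiv_apply_fst]
  rfl

/-- principal ideals divisible by `J` and ideals in the class inverse to that of `J` -/
private noncomputable def e2_CLS (c : ClassGroup (𝓞 K)) (hJ : ClassGroup.mk0 J = c⁻¹) :
    {I : (Ideal (𝓞 K))⁰ // ClassGroup.mk0 I = c} ≃
      {I : {I : (Ideal (𝓞 K))⁰ // IsPrincipal I.1} // J.1 ∣ I.1.1} where
  toFun I := ⟨⟨J * I.1, by
    rw [← ClassGroup.mk0_eq_one_iff (SetLike.coe_mem _)]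
    show ClassGroup.mk0 (J * I.1) = 1
    rw [map_mul, hJ, I.2, inv_mul_cancel]⟩, by
    show J.1 ∣ J.1 * I.1.1
    exact dvd_mul_right _ _⟩
  invFun I := ⟨⟨I.2.choose, by
      rw [mem_nonZeroDivisors_iff_ne_zero]
      intro h
      have h1 := I.2.choose_spec
      rw [h, mul_zero] at h1
      exact (nonZeroDivisors.ne_zero I.1.1.2) h1⟩, by
      have h1 := I.2.choose_spec
      have h2 : I.1.1 = J * ⟨I.2.choose, by
        rw [mem_nonZeroDivisors_iff_ne_zero]
        intro h
        have h1 := I.2.choose_spec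
        rw [h, mul_zero] at h1
        exact (nonZeroDivisors.ne_zero I.1.1.2) h1⟩ := Subtype.ext h1
      have h3 : ClassGroup.mk0 I.1.1 = 1 := by
        rw [ClassGroup.mk0_eq_one_iff]
        exact I.1.2
      rw [h2, map_mul, hJ, inv_mul_eq_one] at h3
      exact h3.symm⟩
  left_inv I := by
    have hne : J.1 ≠ 0 := nonZeroDivisors.ne_zero J.2
    apply Subtype.ext
    apply Subtype.ext
    have h1 := (⟨I.1.1, rfl⟩ : J.1 ∣ J.1 * I.1.1).choose_spec
    exact (mul_left_cancel₀ hne h1).symm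
  right_inv I := by
    apply Subtype.ext
    apply Subtype.ext
    apply Subtype.ext
    exact I.2.choose_spec.symm

private theorem sum_CLS (g : ℝ → ℝ)
    (hg : (Function.support fun I : (Ideal (𝓞 K))⁰ => g (absNorm (I : Ideal (𝓞 K)))).Finite)
    (c : ClassGroup (𝓞 K)) (hJ : ClassGroup.mk0 J = c⁻¹) :
    ∑' x : idealSet K J, g (mixedEmbedding.norm (x : mixedSpace K) / absNorm (J : Ideal (𝓞 K))) =
      (torsionOrder K : ℝ) * ∑' I : {I : (Ideal (𝓞 K))⁰ // ClassGroup.mk0 I = c},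
        g (absNorm (I.1 : Ideal (𝓞 K))) := by
  have hJ0 : (absNorm (J : Ideal (𝓞 K)) : ℝ) ≠ 0 :=
    Nat.cast_ne_zero.mpr (absNorm_ne_zero_of_nonZeroDivisors J)
  have hs : Summable fun p : {I : (Ideal (𝓞 K))⁰ // ClassGroup.mk0 I = c} × torsion K =>
      g (absNorm (p.1.1 : Ideal (𝓞 K))) := by
    apply summable_of_hasFiniteSupport
    have h1 : (Subtype.val ⁻¹' (Function.support fun I : (Ideal (𝓞 K))⁰ =>
        g (absNorm (I : Ideal (𝓞 K)))) : Set {I : (Ideal (𝓞 K))⁰ // ClassGroup.mk0 I = c}).Finite :=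
      hg.preimage Subtype.val_injective.injOn
    exact (h1.prod (Set.finite_univ (α := torsion K))).subset fun p hp => ⟨hp, Set.mem_univ _⟩
  set e := ((e2_CLS K J c hJ).prodCongr (Equiv.refl (torsion K))).trans (e1_CLS K J).symm with he
  have h1 : ∀ p : {I : (Ideal (𝓞 K))⁰ // ClassGroup.mk0 I = c} × torsion K,
      mixedEmbedding.norm (e p : mixedSpace K) =
        absNorm (J : Ideal (𝓞 K)) * absNorm (p.1.1 : Ideal (𝓞 K)) := by
    intro p
    rw [← e1n_CLS]
    have h2 : e1_CLS K J (e p) = (e2_CLS K J c hJ p.1, p.2) := by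
      simp only [he, Equiv.trans_apply, Equiv.apply_symm_apply]
      rfl
    rw [h2]
    show ((absNorm (J.1 * p.1.1.1) : ℕ) : ℝ) = _
    rw [map_mul, Nat.cast_mul]
  rw [← e.tsum_eq]
  simp_rw [h1, mul_div_cancel_left₀ _ hJ0]
  rw [hs.tsum_prod]
  simp only [tsum_const, nsmul_eq_mul]
  rw [tsum_mul_left]
  rfl

end

theorem hCls : StCls.{u} := by
  intro K _ _ J hJ g a b ha hg
  have hf : (Function.support fun I : (Ideal (𝓞 K))⁰ => g (absNorm (I : Ideal (𝓞 K)))).Finite := by
    refine (finite_setOfPred_absNorm_le₀ (S := 𝓞 K) ⌊b⌋₊).subset ?_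
    intro I hI
    have h1 := (hg _ hI).2
    exact Nat.le_floor h1
  have hs : Summable fun I : (Ideal (𝓞 K))⁰ => g (absNorm (I : Ideal (𝓞 K))) :=
    summable_of_hasFiniteSupport hf
  have h1 := fun c : ClassGroup (𝓞 K) => sum_CLS K (J c) g hf c (hJ c)
  simp_rw [h1]
  rw [← Finset.mul_sum]
  congr 1
  rw [← (Equiv.sigmaFiberEquiv (ClassGroup.mk0 (R := 𝓞 K))).tsum_eq]
  rw [Summable.tsum_sigma]
  · rw [tsum_fintype]
    rfl
  · exact (Equiv.summable_iff (Equiv.sigmaFiberEquiv (ClassGroup.mk0 (R := 𝓞 K)))).2 hs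

end Pool.Agent.Helper27.SC
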