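import Pool.Agent.Helper27.SC.St

set_option autoImplicit false

open scoped ContDiff
open MeasureTheory

namespace Pool.Agent.Helper27.SC

private theorem upd_DIR {n : ℕ} (x : Fin n → ℝ) (i : Fin n) (s : ℝ) :
    Function.update x i s = Function.update x i 0 + s • (Pi.single i (1 : ℝ) : Fin n → ℝ) := by
  ext j
  by_cases h : j = i
  · subst h; simp
  · simp [h]

private theorem der_DIR {n : ℕ} (k : ℕ) (f : (Fin n → ℝ) → ℝ) (hf : ContDiff ℝ ∞ f) (M : ℝ)
    (hM : ∀ x, ‖iteratedFDeriv ℝ k f x‖ ≤ M) (i : Fin n) (x : Fin n → ℝ) (s : ℝ) :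
    |iteratedDeriv k (fun s => f (Function.update x i s)) s| ≤ M := by
  set v : Fin n → ℝ := Pi.single i (1 : ℝ) with hv
  set a : Fin n → ℝ := Function.update x i 0 with ha
  set L : ℝ →L[ℝ] (Fin n → ℝ) := ContinuousLinearMap.toSpanSingleton ℝ v with hL
  have e1 : (fun s => f (Function.update x i s)) = (fun z => f (a + z)) ∘ L := by
    funext s
    simp only [Function.comp, hL, ContinuousLinearMap.toSpanSingleton_apply]
    rw [upd_DIR]
  have hfa : ContDiff ℝ ∞ (fun z => f (a + z)) := hf.comp (contDiff_const.add contDiff_id)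
  have hk : (k : WithTop ℕ∞) ≤ (∞ : WithTop ℕ∞) := by exact_mod_cast le_top
  rw [iteratedDeriv_eq_iteratedFDeriv, e1, L.iteratedFDeriv_comp_right hfa s hk,
    iteratedFDeriv_comp_add_left]
  rw [ContinuousMultilinearMap.compContinuousLinearMap_apply, ← Real.norm_eq_abs]
  refine (ContinuousMultilinearMap.le_opNorm _ _).trans ?_
  have h1 : ∏ _j : Fin k, ‖L (1 : ℝ)‖ = 1 := by
    have : ‖L (1 : ℝ)‖ = 1 := by
      simp [hL, hv, ContinuousLinearMap.toSpanSingleton_apply, Pi.norm_single]
    simp [this]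
  rw [h1, mul_one]
  exact hM _

theorem hDir (hOne : StOne) : StDir := by
  intro n k f hk hf hc
  obtain ⟨C₀, hC₀, hO⟩ := hOne k hk
  obtain ⟨R₀, hR₀⟩ := hc.isCompact.isBounded.subset_closedBall (0 : Fin n → ℝ)
  have hkk : (k : WithTop ℕ∞) ≤ (∞ : WithTop ℕ∞) := by exact_mod_cast le_top
  obtain ⟨M₀, hM₀⟩ := (hc.iteratedFDeriv (𝕜 := ℝ) k).exists_bound_of_continuous
    (hf.continuous_iteratedFDeriv hkk)
  set R := max R₀ 0 with hR
  set M := max M₀ 0 with hMdef
  have hR0 : 0 ≤ R := le_max_right _ _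
  have hM0 : 0 ≤ M := le_max_right _ _
  have hsup : ∀ x, f x ≠ 0 → ∀ i, |x i| ≤ R := by
    intro x hx i
    have h1 : x ∈ Metric.closedBall (0 : Fin n → ℝ) R₀ := hR₀ (subset_tsupport _ hx)
    rw [mem_closedBall_zero_iff] at h1
    have h2 := norm_le_pi_norm x i
    rw [Real.norm_eq_abs] at h2
    exact (h2.trans h1).trans (le_max_left _ _)
  refine ⟨R, C₀ * (2 * R * M), hR0, by positivity, hf.continuous, hsup, ?_⟩
  intro i x T hT
  set h : ℝ → ℝ := fun s => f (Function.update x i s) with hh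
  have hsm : ContDiff ℝ ∞ h := by
    have e : h = fun s => f (Function.update x i 0 + s • (Pi.single i (1 : ℝ) : Fin n → ℝ)) := by
      funext s; simp only [hh]; rw [upd_DIR]
    rw [e]
    exact hf.comp (contDiff_const.add (contDiff_id.smul contDiff_const))
  have hz : ∀ s, h s ≠ 0 → s ∈ Set.Icc (-R) R := by
    intro s hs
    have := hsup _ hs i
    simp only [Function.update_self] at this
    exact abs_le.1 this
  have hcs : HasCompactSupport h :=
    HasCompactSupport.of_support_subset_isCompact isCompact_Icc (fun s hs => hz s hs)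
  have hts : tsupport h ⊆ Set.Icc (-R) R :=
    closure_minimal (fun s hs => hz s hs) isClosed_Icc
  have hint : ∫ s, |iteratedDeriv k h s| ≤ 2 * R * M := by
    have hzero : ∀ s, s ∉ Set.Icc (-R) R → |iteratedDeriv k h s| = 0 := by
      intro s hs
      by_contra hne
      apply hs
      apply hts
      have h1 : ‖iteratedFDeriv ℝ k h s‖ ≠ 0 := by
        rw [norm_iteratedFDeriv_eq_norm_iteratedDeriv]
        exact hne
      exact support_iteratedFDeriv_subset k (fun h2 => h1 (by rw [h2, norm_zero]))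
    rw [← setIntegral_eq_integral_of_forall_compl_eq_zero hzero]
    have hb := norm_setIntegral_le_of_norm_le_const (μ := volume) (s := Set.Icc (-R) R)
      (f := fun s => |iteratedDeriv k h s|) (C := M) (by simp)
      (fun s _ => by
        rw [Real.norm_eq_abs, abs_abs]
        exact der_DIR k f hf M (fun y => (hM₀ y).trans (le_max_left _ _)) i x s)
    refine (le_abs_self _).trans (hb.trans ?_)
    rw [measureReal_def, Real.volume_Icc, ENNReal.toReal_ofReal (by linarith)]
    linarith
  refine (hO h hsm hcs T hT).trans ?_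
  have hT' : 0 ≤ T ^ (1 - (k : ℤ)) := zpow_nonneg (by linarith) _
  calc C₀ * T ^ (1 - (k : ℤ)) * ∫ s, |iteratedDeriv k h s|
      ≤ C₀ * T ^ (1 - (k : ℤ)) * (2 * R * M) := mul_le_mul_of_nonneg_left hint (by positivity)
    _ = C₀ * (2 * R * M) * T ^ (1 - (k : ℤ)) := by ring

end Pool.Agent.Helper27.SC
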