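import Pool.Agent.Helper27.SC.St

/-!
# Project SC, module IND (induction on the dimension)
-/

set_option autoImplicit false

open MeasureTheory

universe u

namespace Pool.Agent.Helper27.SC

private theorem int_bound_IND {R T : ℝ} (hT : 1 ≤ T) (j : ℤ) (h : |(j : ℝ) / T| ≤ R) :
    j ∈ Finset.Icc (-(⌊R * T⌋₊ : ℤ)) (⌊R * T⌋₊ : ℤ) := by
  have hT0 : 0 < T := by linarith
  rw [abs_div, abs_of_pos hT0, div_le_iff₀ hT0] at h
  have h2 : (j.natAbs : ℝ) ≤ R * T := by
    rw [Nat.cast_natAbs, Int.cast_abs]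
    exact h
  have h3 : j.natAbs ≤ ⌊R * T⌋₊ := Nat.le_floor h2
  rw [Finset.mem_Icc]
  omega

/-- The box of integer vectors. -/
private noncomputable def box_IND (n N : ℕ) : Finset (Fin n → ℤ) := Fintype.piFinset fun _ => Finset.Icc (-(N : ℤ)) (N : ℤ)

private theorem card_box_IND (n N : ℕ) : (box_IND n N).card = (2 * N + 1) ^ n := by
  unfold box_IND
  rw [Fintype.card_piFinset]
  simp only [Int.card_Icc, Finset.prod_const, Finset.card_univ, Fintype.card_fin]
  congr 1
  omega

private theorem mem_box_IND {n : ℕ} {R T : ℝ} (hT : 1 ≤ T) (m : Fin n → ℤ) (h : ∀ i, |(m i : ℝ) / T| ≤ R) :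
    m ∈ box_IND n ⌊R * T⌋₊ := by
  unfold box_IND
  rw [Fintype.mem_piFinset]
  exact fun i => int_bound_IND hT (m i) (h i)

private theorem cont_cons_IND (n : ℕ) : Continuous (fun p : (Fin n → ℝ) × ℝ => (Fin.cons p.2 p.1 : Fin (n + 1) → ℝ)) := by
  refine continuous_pi fun i => ?_
  refine Fin.cases ?_ (fun i => ?_) i
  · exact continuous_snd
  · exact (continuous_apply i).comp continuous_fst

private theorem line_IND {n k : ℕ} {R C : ℝ} {f : (Fin (n + 1) → ℝ) → ℝ} (hR : 0 ≤ R)
    (hf : Continuous f) (hsupp : ∀ x, f x ≠ 0 → ∀ i, |x i| ≤ R)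
    (hone : ∀ (i : Fin (n + 1)) (x : Fin (n + 1) → ℝ) (T : ℝ), 1 ≤ T →
      |∑' j : ℤ, f (Function.update x i (j / T)) - T * ∫ s, f (Function.update x i s)| ≤ C * T ^ (1 - (k : ℤ)))
    (i : Fin n) (y : Fin n → ℝ) (T : ℝ) (hT : 1 ≤ T) :
    |∑' j : ℤ, (∫ s', f (Fin.cons s' (Function.update y i (j / T)))) -
      T * ∫ s, (∫ s', f (Fin.cons s' (Function.update y i s)))| ≤ 2 * R * C * T ^ (1 - (k : ℤ)) := by
  set F : ℝ → ℝ → ℝ := fun s' s => f (Function.update (Fin.cons s' y : Fin (n + 1) → ℝ) i.succ s) with hF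
  have hFeq : ∀ a s' : ℝ, f (Fin.cons s' (Function.update y i a)) = F s' a := by
    intro a s'
    rw [hF]
    simp only [Fin.cons_update]
  have hFc : Continuous (Function.uncurry F) := by
    rw [hF]
    refine hf.comp ?_
    have h1 : Continuous (fun p : ℝ × ℝ => (Fin.cons p.1 y : Fin (n + 1) → ℝ)) :=
      (cont_cons_IND n).comp (continuous_const.prodMk continuous_fst)
    exact h1.update i.succ continuous_snd
  have hFs1 : ∀ s' s, F s' s ≠ 0 → |s'| ≤ R := by
    intro s' s h
    have := hsupp _ h 0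
    rwa [Function.update_of_ne (Fin.succ_ne_zero i).symm, Fin.cons_zero] at this
  have hFs2 : ∀ s' s, F s' s ≠ 0 → |s| ≤ R := by
    intro s' s h
    have := hsupp _ h i.succ
    rwa [Function.update_self] at this
  have hFcs : HasCompactSupport (Function.uncurry F) := by
    refine HasCompactSupport.of_support_subset_isCompact
      ((isCompact_Icc (a := -R) (b := R)).prod (isCompact_Icc (a := -R) (b := R))) ?_
    rintro ⟨s', s⟩ h
    exact ⟨abs_le.mp (hFs1 s' s h), abs_le.mp (hFs2 s' s h)⟩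
  have hFint : Integrable (Function.uncurry F) (volume.prod volume) :=
    hFc.integrable_of_hasCompactSupport hFcs
  have hFa : ∀ a : ℝ, Integrable (fun s' => F s' a) := by
    intro a
    refine Continuous.integrable_of_hasCompactSupport ?_ ?_
    · exact hFc.comp (continuous_id.prodMk continuous_const)
    · refine HasCompactSupport.of_support_subset_isCompact (isCompact_Icc (a := -R) (b := R)) ?_
      intro s' h
      exact abs_le.mp (hFs1 s' a h)
  simp only [hFeq]
  -- the sum is finite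
  set N := ⌊R * T⌋₊ with hN
  have hs1 : ∑' j : ℤ, (∫ s', F s' (j / T)) = ∑ j ∈ Finset.Icc (-(N : ℤ)) (N : ℤ), ∫ s', F s' (j / T) := by
    refine tsum_eq_sum fun j hj => ?_
    have : ∀ s', F s' (j / T) = 0 := by
      intro s'
      by_contra h
      exact hj (int_bound_IND hT j (hFs2 _ _ h))
    simp [this]
  have hs2 : ∀ s', ∑' j : ℤ, F s' (j / T) = ∑ j ∈ Finset.Icc (-(N : ℤ)) (N : ℤ), F s' (j / T) := by
    intro s'
    refine tsum_eq_sum fun j hj => ?_
    by_contra h
    exact hj (int_bound_IND hT j (hFs2 _ _ h))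
  have hswap : ∫ s, ∫ s', F s' s = ∫ s', ∫ s, F s' s :=
    (integral_integral_swap (f := F) hFint).symm
  have hG : ∑' j : ℤ, (∫ s', F s' (j / T)) - T * ∫ s, ∫ s', F s' s =
      ∫ s', (∑' j : ℤ, F s' (j / T) - T * ∫ s, F s' s) := by
    rw [hs1, hswap]
    simp only [hs2]
    rw [integral_sub, integral_finsetSum, integral_const_mul]
    · intro j _
      exact hFa _
    · exact integrable_finsetSum _ fun j _ => hFa _
    · exact hFint.integral_prod_left.const_mul T
  rw [hG]
  set G : ℝ → ℝ := fun s' => ∑' j : ℤ, F s' (j / T) - T * ∫ s, F s' s with hGdef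
  have hGb : ∀ s', ‖G s'‖ ≤ C * T ^ (1 - (k : ℤ)) := by
    intro s'
    rw [Real.norm_eq_abs]
    exact hone i.succ (Fin.cons s' y) T hT
  have hG0 : ∀ s', s' ∉ Set.Icc (-R) R → G s' = 0 := by
    intro s' hs'
    have h0 : ∀ s, F s' s = 0 := by
      intro s
      by_contra h
      exact hs' (abs_le.mp (hFs1 s' s h))
    rw [hGdef]
    simp [h0]
  have hGi : ∫ s' in Set.Icc (-R) R, G s' = ∫ s', G s' :=
    setIntegral_eq_integral_of_forall_compl_eq_zero fun s' hs' => hG0 s' hs'
  rw [← hGi]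
  have hb := norm_setIntegral_le_of_norm_le_const (μ := volume) (s := Set.Icc (-R) R) (f := G)
    (C := C * T ^ (1 - (k : ℤ))) (by simp) (fun s' _ => hGb s')
  rw [Real.norm_eq_abs] at hb
  refine hb.trans ?_
  have hvol : volume.real (Set.Icc (-R) R) = 2 * R := by
    rw [Real.volume_real_Icc_of_le (by linarith)]
    ring
  rw [hvol]
  apply le_of_eq
  ring

private theorem fub_IND {n : ℕ} {R : ℝ} {f : (Fin (n + 1) → ℝ) → ℝ}
    (hf : Continuous f) (hsupp : ∀ x, f x ≠ 0 → ∀ i, |x i| ≤ R) :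
    ∫ x, f x = ∫ y : Fin n → ℝ, ∫ s, f (Fin.cons s y) := by
  have hcs : HasCompactSupport f := by
    refine HasCompactSupport.of_support_subset_isCompact
      (isCompact_univ_pi fun _ : Fin (n + 1) => isCompact_Icc (a := -R) (b := R)) ?_
    intro x hx i _
    exact abs_le.mp (hsupp x hx i)
  have hfi : Integrable f := hf.integrable_of_hasCompactSupport hcs
  have hmp := volume_preserving_piFinSuccAbove (fun _ : Fin (n + 1) => ℝ) 0
  have hmp' := hmp.symm
  have hfi' : Integrable (fun p : ℝ × (Fin n → ℝ) => f ((MeasurableEquiv.piFinSuccAbove (fun _ : Fin (n + 1) => ℝ) 0).symm p))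
      (volume.prod volume) := by
    exact (hmp'.integrable_comp_emb (MeasurableEquiv.measurableEmbedding _)).mpr hfi
  have h1 : ∫ x, f x = ∫ p : ℝ × (Fin n → ℝ), f ((MeasurableEquiv.piFinSuccAbove (fun _ : Fin (n + 1) => ℝ) 0).symm p) := by
    exact (hmp'.integral_comp' f).symm
  rw [h1]
  rw [show (volume : Measure (ℝ × (Fin n → ℝ))) = volume.prod volume from rfl]
  rw [integral_prod_symm _ hfi']
  refine integral_congr_ae (Filter.Eventually.of_forall fun y => ?_)
  refine integral_congr_ae (Filter.Eventually.of_forall fun s => ?_)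
  have h2 : (MeasurableEquiv.piFinSuccAbove (fun _ : Fin (n + 1) => ℝ) 0).symm (s, y) = Fin.cons s y := by
    funext i
    refine Fin.cases ?_ (fun i => ?_) i
    · simp [MeasurableEquiv.piFinSuccAbove]
    · simp [MeasurableEquiv.piFinSuccAbove]
  show f ((MeasurableEquiv.piFinSuccAbove (fun _ : Fin (n + 1) => ℝ) 0).symm (s, y)) = f (Fin.cons s y)
  rw [h2]

theorem hInd : StInd := by
  intro n
  induction n with
  | zero =>
    intro k R C f _ _ _
    refine ⟨0, le_refl _, fun T _ => ?_⟩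
    have h1 : ∑' m : Fin 0 → ℤ, f (fun i => (m i : ℝ) / T) = f default := by
      rw [tsum_fintype]
      rw [Fintype.sum_unique]
      congr 1
      exact Subsingleton.elim _ _
    have h2 : ∫ x, f x = f default := by
      rw [MeasureTheory.volume_pi, Measure.pi_of_empty _ (default : Fin 0 → ℝ), integral_dirac]
    rw [h1, h2]
    simp
  | succ n ih =>
    intro k R C f hR hC hone'
    obtain ⟨hf, hsupp, hone⟩ := hone'
    set g : (Fin n → ℝ) → ℝ := fun y => ∫ s, f (Fin.cons s y) with hg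
    have hgone : OneDim n k R (2 * R * C) g := by
      refine ⟨?_, ?_, ?_⟩
      · have h1 : ∀ y, g y = ∫ s in Set.Icc (-R) R, f (Fin.cons s y) := by
          intro y
          rw [hg]
          refine (setIntegral_eq_integral_of_forall_compl_eq_zero fun s hs => ?_).symm
          by_contra h
          have := hsupp _ h 0
          rw [Fin.cons_zero] at this
          exact hs (abs_le.mp this)
        have h2 : Continuous (Function.uncurry (fun (y : Fin n → ℝ) (s : ℝ) => f (Fin.cons s y))) :=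
          hf.comp (cont_cons_IND n)
        have h3 := continuous_parametric_integral_of_continuous (μ := (volume : Measure ℝ)) h2
          (isCompact_Icc (a := -R) (b := R))
        rw [show g = fun y => ∫ s in Set.Icc (-R) R, f (Fin.cons s y) from funext h1]
        exact h3
      · intro y hy i
        by_contra hi
        apply hy
        rw [hg]
        have : ∀ s, f (Fin.cons s y) = 0 := by
          intro s
          by_contra h
          have := hsupp _ h i.succ
          rw [Fin.cons_succ] at this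
          exact hi this
        simp [this]
      · intro i y T hT
        exact line_IND hR hf hsupp hone i y T hT
    obtain ⟨C'', hC'', hI⟩ := ih k R (2 * R * C) g hR (by positivity) hgone
    refine ⟨C * (2 * R + 1) ^ n + C'', by positivity, fun T hT => ?_⟩
    have hT0 : 0 < T := by linarith
    have hfub : ∫ x, f x = ∫ y, g y := fub_IND hf hsupp
    set N := ⌊R * T⌋₊ with hN
    -- the sum over `Fin (n+1) → ℤ`
    set E : (Fin n → ℤ) × ℤ ≃ (Fin (n + 1) → ℤ) := (Equiv.prodComm _ _).trans (Fin.consEquiv fun _ => ℤ) with hE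
    have hEa : ∀ (m : Fin n → ℤ) (j : ℤ), (fun i => ((E (m, j)) i : ℝ) / T) =
        (Fin.cons ((j : ℝ) / T) (fun i => (m i : ℝ) / T) : Fin (n + 1) → ℝ) := by
      intro m j
      funext i
      refine Fin.cases ?_ (fun i => ?_) i
      · simp [hE]
      · simp [hE]
    have hsum0 : ∑' m : Fin (n + 1) → ℤ, f (fun i => (m i : ℝ) / T) =
        ∑' m : Fin n → ℤ, ∑' j : ℤ, f (Fin.cons ((j : ℝ) / T) (fun i => (m i : ℝ) / T)) := by
      rw [← E.tsum_eq]
      have hsm : Summable (fun p : (Fin n → ℤ) × ℤ => f (fun i => ((E p) i : ℝ) / T)) := by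
        refine summable_of_hasFiniteSupport ?_
        refine Set.Finite.subset ((box_IND n N ×ˢ Finset.Icc (-(N : ℤ)) (N : ℤ)).finite_toSet) ?_
        rintro ⟨m, j⟩ hp
        rw [Function.mem_support, hEa] at hp
        have h := hsupp _ hp
        rw [Finset.mem_coe, Finset.mem_product]
        refine ⟨mem_box_IND hT m fun i => ?_, int_bound_IND hT j ?_⟩
        · have := h i.succ
          rwa [Fin.cons_succ] at this
        · have := h 0
          rwa [Fin.cons_zero] at this
      rw [hsm.tsum_prod]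
      refine tsum_congr fun m => tsum_congr fun j => ?_
      rw [hEa]
    -- reduce to finite sums
    have hsum1 : ∑' m : Fin n → ℤ, ∑' j : ℤ, f (Fin.cons ((j : ℝ) / T) (fun i => (m i : ℝ) / T)) =
        ∑ m ∈ box_IND n N, ∑' j : ℤ, f (Fin.cons ((j : ℝ) / T) (fun i => (m i : ℝ) / T)) := by
      refine tsum_eq_sum fun m hm => ?_
      have : ∀ j : ℤ, f (Fin.cons ((j : ℝ) / T) (fun i => (m i : ℝ) / T)) = 0 := by
        intro j
        by_contra h
        refine hm (mem_box_IND hT m fun i => ?_)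
        have := hsupp _ h i.succ
        rwa [Fin.cons_succ] at this
      simp [this]
    have hsum2 : ∑' m : Fin n → ℤ, g (fun i => (m i : ℝ) / T) =
        ∑ m ∈ box_IND n N, g (fun i => (m i : ℝ) / T) := by
      refine tsum_eq_sum fun m hm => ?_
      by_contra h
      exact hm (mem_box_IND hT m fun i => hgone.2.1 _ h i)
    have hterm : ∀ m : Fin n → ℤ, |∑' j : ℤ, f (Fin.cons ((j : ℝ) / T) (fun i => (m i : ℝ) / T)) -
        T * g (fun i => (m i : ℝ) / T)| ≤ C * T ^ (1 - (k : ℤ)) := by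
      intro m
      have h := hone 0 (Fin.cons 0 (fun i => (m i : ℝ) / T)) T hT
      simp only [Fin.update_cons_zero] at h
      exact h
    have hE1 : |∑' m : Fin (n + 1) → ℤ, f (fun i => (m i : ℝ) / T) -
        T * ∑' m : Fin n → ℤ, g (fun i => (m i : ℝ) / T)| ≤ ((2 * N + 1 : ℕ) : ℝ) ^ n * (C * T ^ (1 - (k : ℤ))) := by
      rw [hsum0, hsum1, hsum2, Finset.mul_sum, ← Finset.sum_sub_distrib]
      refine (Finset.abs_sum_le_sum_abs _ _).trans ?_
      refine (Finset.sum_le_card_nsmul _ _ _ fun m _ => hterm m).trans ?_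
      rw [card_box_IND, nsmul_eq_mul]
      push_cast
      exact le_refl _
    have hNT : ((2 * N + 1 : ℕ) : ℝ) ≤ (2 * R + 1) * T := by
      have h1 : (N : ℝ) ≤ R * T := Nat.floor_le (by positivity)
      push_cast
      nlinarith
    have hpow : ((2 * N + 1 : ℕ) : ℝ) ^ n ≤ (2 * R + 1) ^ n * T ^ n := by
      rw [← mul_pow]
      exact pow_le_pow_left₀ (by positivity) hNT n
    have hE2 : |T * ∑' m : Fin n → ℤ, g (fun i => (m i : ℝ) / T) - T ^ (n + 1) * ∫ x, f x| ≤
        T * (C'' * T ^ ((n : ℤ) - k)) := by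
      rw [hfub, show T * ∑' m : Fin n → ℤ, g (fun i => (m i : ℝ) / T) - T ^ (n + 1) * ∫ y, g y =
        T * (∑' m : Fin n → ℤ, g (fun i => (m i : ℝ) / T) - T ^ n * ∫ y, g y) by ring, abs_mul, abs_of_pos hT0]
      exact mul_le_mul_of_nonneg_left (hI T hT) hT0.le
    have hz1 : T ^ n * T ^ (1 - (k : ℤ)) = T ^ (((n + 1 : ℕ) : ℤ) - k) := by
      rw [← zpow_natCast, ← zpow_add₀ hT0.ne']
      congr 1
      push_cast
      ring
    have hz2 : T * T ^ ((n : ℤ) - k) = T ^ (((n + 1 : ℕ) : ℤ) - k) := by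
      rw [← zpow_one_add₀ hT0.ne']
      congr 1
      push_cast
      ring
    have hE1' : ((2 * N + 1 : ℕ) : ℝ) ^ n * (C * T ^ (1 - (k : ℤ))) ≤
        C * (2 * R + 1) ^ n * T ^ (((n + 1 : ℕ) : ℤ) - k) := by
      rw [← hz1]
      have h0 : 0 ≤ C * T ^ (1 - (k : ℤ)) := by positivity
      calc ((2 * N + 1 : ℕ) : ℝ) ^ n * (C * T ^ (1 - (k : ℤ)))
          ≤ (2 * R + 1) ^ n * T ^ n * (C * T ^ (1 - (k : ℤ))) := mul_le_mul_of_nonneg_right hpow h0
        _ = C * (2 * R + 1) ^ n * (T ^ n * T ^ (1 - (k : ℤ))) := by ring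
    have htri := abs_sub_le (∑' m : Fin (n + 1) → ℤ, f (fun i => (m i : ℝ) / T))
      (T * ∑' m : Fin n → ℤ, g (fun i => (m i : ℝ) / T)) (T ^ (n + 1) * ∫ x, f x)
    have hfin : T * (C'' * T ^ ((n : ℤ) - k)) = C'' * T ^ (((n + 1 : ℕ) : ℤ) - k) := by
      rw [← hz2]
      ring
    rw [hfin] at hE2
    rw [add_mul]
    linarith

end Pool.Agent.Helper27.SC
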