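import Pool.Agent.Helper27.SC.St

set_option autoImplicit false

open scoped ContDiff nonZeroDivisors
open NumberField MeasureTheory

universe u

namespace Pool.Agent.Helper27.SC

open NumberField.mixedEmbedding NumberField.Units NumberField.Units.dirichletUnitTheorem

/-- compact support of `s ↦ v (exp s)` -/
private theorem cs_INT (v : ℝ → ℝ) (a b : ℝ) (ha : 0 < a)
    (hv : ∀ x, v x ≠ 0 → a ≤ x ∧ x ≤ b) :
    ∀ s, v (Real.exp s) ≠ 0 → s ∈ Set.Icc (Real.log a) (Real.log b) := by
  intro s hs
  obtain ⟨h1, h2⟩ := hv _ hs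
  constructor
  · rw [← Real.log_exp s]; exact Real.log_le_log ha h1
  · rw [← Real.log_exp s]; exact Real.log_le_log (Real.exp_pos s) h2

private theorem hcs_INT (v : ℝ → ℝ) (a b : ℝ) (ha : 0 < a)
    (hv : ∀ x, v x ≠ 0 → a ≤ x ∧ x ≤ b) :
    HasCompactSupport (fun s => v (Real.exp s)) := by
  apply HasCompactSupport.intro (isCompact_Icc (a := Real.log a) (b := Real.log b))
  intro s hs
  by_contra h
  exact hs (cs_INT v a b ha hv s h)

/-- `∫ v(e^s) e^s ds = ∫ v` -/
private theorem exp_INT (v : ℝ → ℝ) (hvc : Continuous v) (a b : ℝ) (ha : 0 < a) (hab : a < b)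
    (hv : ∀ x, v x ≠ 0 → a ≤ x ∧ x ≤ b) :
    ∫ s, v (Real.exp s) * Real.exp s = ∫ u, v u := by
  have hA : 0 < a / 2 := by linarith
  have hB : 0 < b + 1 := by linarith
  have e1 : ∫ u, v u = ∫ u in (a / 2)..(b + 1), v u := by
    symm
    apply intervalIntegral.integral_eq_integral_of_support_subset
    intro x hx
    obtain ⟨h1, h2⟩ := hv x hx
    exact ⟨by linarith, by linarith⟩
  have e2 : ∫ s, v (Real.exp s) * Real.exp s =
      ∫ s in (Real.log (a / 2))..(Real.log (b + 1)), v (Real.exp s) * Real.exp s := by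
    symm
    apply intervalIntegral.integral_eq_integral_of_support_subset
    intro s hs
    have hs' : v (Real.exp s) ≠ 0 := left_ne_zero_of_mul hs
    obtain ⟨h1, h2⟩ := hv _ hs'
    constructor
    · rw [Real.log_lt_iff_lt_exp hA]; linarith
    · rw [Real.le_log_iff_exp_le hB]; linarith
  rw [e1, e2]
  have := intervalIntegral.integral_comp_mul_deriv (a := Real.log (a / 2)) (b := Real.log (b + 1))
    (f := Real.exp) (f' := Real.exp) (g := v) (fun x _ => Real.hasDerivAt_exp x)
    Real.continuous_exp.continuousOn hvc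
  rw [Real.exp_log hA, Real.exp_log hB] at this
  exact this

variable (K : Type u) [Field K] [NumberField K]

open scoped Classical in
/-- the averaged identity -/
private theorem avg_INT (hSm : StSm.{u}) (v w : ℝ → ℝ) (η : logSpace K → ℝ)
    (hv : Good v) (hw : Good w) (hη : ContDiff ℝ ∞ η) (hηc : HasCompactSupport η) :
    (∫ x : mixedSpace K, tf K w η x) * (∫ s, v (Real.exp s) * Real.exp s) =
      ∫ x : mixedSpace K, ∫ s : ℝ, v (Real.exp s) *
        tf K w η (Real.exp (-s / Module.finrank ℚ K) • x) := by
  obtain ⟨hvs, a, b, ha, hab, hsv⟩ := hv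
  obtain ⟨hsm, hcs⟩ := hSm K w η hw hη hηc
  have hn : (0 : ℝ) < Module.finrank ℚ K := by exact_mod_cast Module.finrank_pos
  have hcont : Continuous (Function.uncurry (fun (s : ℝ) (x : mixedSpace K) =>
      v (Real.exp s) * tf K w η (Real.exp (-s / Module.finrank ℚ K) • x))) := by
    have h1 : Continuous (fun p : ℝ × mixedSpace K => v (Real.exp p.1)) :=
      hvs.continuous.comp (Real.continuous_exp.comp continuous_fst)
    have h2 : Continuous (fun p : ℝ × mixedSpace K =>
        tf K w η (Real.exp (-p.1 / Module.finrank ℚ K) • p.2)) :=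
      hsm.continuous.comp ((Real.continuous_exp.comp
        ((continuous_fst.neg).div_const _)).smul continuous_snd)
    exact h1.mul h2
  have hcomp : HasCompactSupport (Function.uncurry (fun (s : ℝ) (x : mixedSpace K) =>
      v (Real.exp s) * tf K w η (Real.exp (-s / Module.finrank ℚ K) • x))) := by
    have hK : IsCompact ((fun p : ℝ × mixedSpace K =>
        ((p.1, Real.exp (p.1 / Module.finrank ℚ K) • p.2) : ℝ × mixedSpace K)) ''
          (Set.Icc (Real.log a) (Real.log b) ×ˢ tsupport (tf K w η))) := by
      apply (isCompact_Icc.prod hcs.isCompact).image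
      exact continuous_fst.prodMk ((Real.continuous_exp.comp
        (continuous_fst.div_const _)).smul continuous_snd)
    apply HasCompactSupport.intro hK
    rintro ⟨s, x⟩ hsx
    by_contra h
    simp only [Function.uncurry_apply_pair] at h
    apply hsx
    refine ⟨(s, Real.exp (-s / Module.finrank ℚ K) • x), ⟨?_, ?_⟩, ?_⟩
    · exact cs_INT v a b ha hsv s (left_ne_zero_of_mul h)
    · exact subset_tsupport _ (right_ne_zero_of_mul h)
    · simp only [smul_smul, ← Real.exp_add]
      have : s / (Module.finrank ℚ K : ℝ) + -s / Module.finrank ℚ K = 0 := by ring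
      rw [this, Real.exp_zero, one_smul]
  rw [← integral_integral_swap_of_hasCompactSupport hcont hcomp, ← integral_const_mul]
  congr 1
  ext s
  rw [integral_const_mul, Measure.integral_comp_smul]
  rw [mixedEmbedding.finrank]
  have hpow : Real.exp (-s / Module.finrank ℚ K) ^ Module.finrank ℚ K = Real.exp (-s) := by
    rw [← Real.exp_nat_mul]
    congr 1
    field_simp
  rw [hpow, ← Real.exp_neg, neg_neg, abs_of_pos (Real.exp_pos s), smul_eq_mul]
  ring

open scoped Classical in
private theorem sym_INT (v w : ℝ → ℝ) (η : logSpace K → ℝ) (hv0 : v 0 = 0) (hw0 : w 0 = 0)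
    (x : mixedSpace K) :
    ∫ s : ℝ, v (Real.exp s) * tf K w η (Real.exp (-s / Module.finrank ℚ K) • x) =
      ∫ s : ℝ, w (Real.exp s) * tf K v η (Real.exp (-s / Module.finrank ℚ K) • x) := by
  have hn : (0 : ℝ) < Module.finrank ℚ K := by exact_mod_cast Module.finrank_pos
  have hnorm : ∀ s : ℝ, mixedEmbedding.norm (Real.exp (-s / Module.finrank ℚ K) • x) =
      Real.exp (-s) * mixedEmbedding.norm x := by
    intro s
    rw [mixedEmbedding.norm_smul, abs_of_pos (Real.exp_pos _), ← Real.exp_nat_mul]
    congr 2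
    field_simp
  by_cases hx : mixedEmbedding.norm x = 0
  · have h0 : ∀ (u : ℝ → ℝ), u 0 = 0 → ∀ s : ℝ,
        tf K u η (Real.exp (-s / Module.finrank ℚ K) • x) = 0 := by
      intro u hu s
      unfold tf
      rw [hnorm, hx, mul_zero, hu, zero_mul]
    simp only [h0 w hw0, h0 v hv0, mul_zero]
  · have hN : 0 < mixedEmbedding.norm x := lt_of_le_of_ne (mixedEmbedding.norm_nonneg x) (Ne.symm hx)
    have h0 : ∀ (u : ℝ → ℝ) (s : ℝ),
        tf K u η (Real.exp (-s / Module.finrank ℚ K) • x) =
          u (Real.exp (Real.log (mixedEmbedding.norm x) - s)) * η (logMap x) := by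
      intro u s
      unfold tf
      rw [hnorm, logMap_real_smul hx (Real.exp_pos _).ne', Real.exp_sub, Real.exp_log hN,
        Real.exp_neg]
      congr 2
      field_simp
    simp only [h0]
    rw [← integral_sub_left_eq_self (fun s : ℝ => v (Real.exp s) *
      (w (Real.exp (Real.log (mixedEmbedding.norm x) - s)) * η (logMap x))) volume
        (Real.log (mixedEmbedding.norm x))]
    congr 1
    ext s
    rw [sub_sub_cancel]
    ring

open scoped Classical in
theorem hInt (hSm : StSm.{u}) : StInt.{u} := by
  intro K _ _ w η hw hη hηc hint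
  -- a good function `v` with nonzero integral
  let B : ContDiffBump (2 : ℝ) := ⟨1 / 2, 1, by norm_num, by norm_num⟩
  have hv : Good (fun x => B x) := by
    refine ⟨B.contDiff, 1, 3, by norm_num, by norm_num, ?_⟩
    intro x hx
    have : x ∈ Function.support (fun x => B x) := hx
    have h2 := B.support_eq
    rw [show (fun x => B x) = (B : ℝ → ℝ) from rfl, h2] at this
    rw [Metric.mem_ball, Real.dist_eq] at this
    have h3 := abs_lt.mp this
    have h4 : B.rOut = 1 := rfl
    rw [h4] at h3
    exact ⟨by linarith, by linarith⟩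
  have hw' := hw
  obtain ⟨hws, a, b, ha, hab, hsw⟩ := hw'
  have hw0 : w 0 = 0 := by
    by_contra h
    have := (hsw 0 h).1
    linarith
  have hv0 : (fun x => B x) 0 = 0 := by
    by_contra h
    obtain ⟨_, a', b', ha', _, hs'⟩ := hv
    have := (hs' 0 h).1
    linarith
  have e1 := avg_INT K hSm (fun x => B x) w η hv hw hη hηc
  have e2 := avg_INT K hSm w (fun x => B x) η hw hv hη hηc
  rw [exp_INT w hws.continuous a b ha hab hsw, hint, mul_zero] at e2
  have e3 : (∫ x : mixedSpace K, ∫ s : ℝ, (fun x => B x) (Real.exp s) *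
        tf K w η (Real.exp (-s / Module.finrank ℚ K) • x)) =
      ∫ x : mixedSpace K, ∫ s : ℝ, w (Real.exp s) *
        tf K (fun x => B x) η (Real.exp (-s / Module.finrank ℚ K) • x) := by
    congr 1
    ext x
    exact sym_INT K (fun x => B x) w η hv0 hw0 x
  rw [e3, ← e2] at e1
  have hpos : 0 < ∫ s, (fun x => B x) (Real.exp s) * Real.exp s := by
    obtain ⟨hvs, a', b', ha', hab', hs'⟩ := hv
    apply Continuous.integral_pos_of_hasCompactSupport_nonneg_nonzero (x := Real.log 2)
    · exact (hvs.continuous.comp Real.continuous_exp).mul Real.continuous_exp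
    · exact (hcs_INT _ a' b' ha' hs').mul_right
    · intro s
      exact mul_nonneg B.nonneg (Real.exp_pos s).le
    · have : (fun x => B x) (Real.exp (Real.log 2)) = 1 := by
        rw [Real.exp_log (by norm_num)]
        exact B.one_of_mem_closedBall (Metric.mem_closedBall_self (by norm_num [B]))
      rw [this, one_mul]
      exact (Real.exp_pos _).ne'
  exact (mul_eq_zero.mp e1).resolve_right hpos.ne'

end Pool.Agent.Helper27.SC
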