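import Pool.Agent.Helper27.SC.St

/-!
# Project SC, module LAT: sums over general lattices
-/

set_option autoImplicit false

open scoped ContDiff nonZeroDivisors
open NumberField MeasureTheory

universe u

namespace Pool.Agent.Helper27.SC

private theorem int_LAT {E : Type u} [NormedAddCommGroup E] [NormedSpace ℝ E] [FiniteDimensional ℝ E]
    [MeasurableSpace E] [BorelSpace E] (μ : Measure E) [μ.IsAddHaarMeasure] (f : E → ℝ)
    (hf : Continuous f) (hc : HasCompactSupport f) (h0 : ∫ x, f x ∂μ = 0) {n : ℕ}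
    (e : (Fin n → ℝ) ≃L[ℝ] E) : ∫ x, f (e x) = 0 := by
  have hm : MeasurableEmbedding (e : (Fin n → ℝ) → E) :=
    e.toHomeomorph.measurableEmbedding
  rw [← hm.integral_map f, Measure.integral_isAddLeftInvariant_eq_smul_of_hasCompactSupport
    (Measure.map e volume) μ hf hc, integral_smul_nnreal_measure, h0, smul_zero]

theorem hLat (hDir : StDir) (hInd : StInd) : StLat.{u} := by
  intro E _ _ _ _ _ L _ _ μ _ f hf hc h0 A
  have hfin : Module.Finite ℤ L := ZLattice.module_finite ℝ L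
  have hfree : Module.Free ℤ L := ZLattice.module_free ℝ L
  set n : ℕ := Module.finrank ℤ L with hn
  let bZ : Module.Basis (Fin n) ℤ L := Module.finBasis ℤ L
  let bR : Module.Basis (Fin n) ℝ E := bZ.ofZLatticeBasis ℝ L
  let e : E ≃L[ℝ] (Fin n → ℝ) := bR.equivFunL
  let g : (Fin n → ℝ) → ℝ := fun x => f (e.symm x)
  have hg : ContDiff ℝ ∞ g := hf.comp e.symm.contDiff
  have hgc : HasCompactSupport g := hc.comp_homeomorph e.symm.toHomeomorph
  have hg0 : ∫ x, g x = 0 := int_LAT μ f hf.continuous hc h0 e.symm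
  obtain ⟨R, C, hR, hC, hO⟩ := hDir n (n + A + 2) g (by omega) hg hgc
  obtain ⟨C', hC', hb⟩ := hInd n (n + A + 2) R C g hR hC hO
  refine ⟨C', hC', fun T hT => ?_⟩
  have h1 := hb T hT
  rw [hg0, mul_zero, sub_zero] at h1
  have hT0 : (0 : ℝ) < T := by linarith
  have h2 : ∑' ℓ : L, f (T⁻¹ • (ℓ : E)) = ∑' m : Fin n → ℤ, g (fun i => (m i : ℝ) / T) := by
    rw [← bZ.equivFun.toEquiv.tsum_eq]
    refine tsum_congr fun ℓ => ?_
    show f (T⁻¹ • (ℓ : E)) = f (e.symm (fun i => ((bZ.equivFun ℓ) i : ℝ) / T))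
    congr 1
    rw [ContinuousLinearEquiv.eq_symm_apply]
    funext i
    rw [map_smul, Pi.smul_apply, smul_eq_mul, div_eq_inv_mul]
    congr 1
    show bR.equivFun (ℓ : E) i = ((bZ.equivFun ℓ) i : ℝ)
    rw [Module.Basis.equivFun_apply, Module.Basis.equivFun_apply]
    have := bZ.ofZLatticeBasis_repr_apply ℝ L ℓ i
    exact this
  rw [h2]
  refine h1.trans ?_
  apply mul_le_mul_of_nonneg_left _ hC'
  have h3 : ((n : ℤ) - ((n + A + 2 : ℕ) : ℤ)) = -((A + 2 : ℕ) : ℤ) := by
    push_cast; ring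
  rw [h3, zpow_neg, zpow_natCast]
  apply inv_anti₀ (by positivity)
  exact pow_le_pow_right₀ hT (by omega)

end Pool.Agent.Helper27.SC
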