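import Pool.Agent.Helper27.SC.St

/-!
# Project SC, module ONE: 1-dimensional Poisson summation with an error term
-/

set_option autoImplicit false

open scoped ContDiff FourierTransform SchwartzMap
open MeasureTheory Filter

namespace Pool.Agent.Helper27.SC

/-- the scaled complex function -/
private noncomputable def g_ONE (h : ℝ → ℝ) (T : ℝ) (x : ℝ) : ℂ := ((h (T⁻¹ * x) : ℝ) : ℂ)

private theorem contDiff_ONE (h : ℝ → ℝ) (hh : ContDiff ℝ ∞ h) (T : ℝ) : ContDiff ℝ ∞ (g_ONE h T) :=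
  Complex.ofRealCLM.contDiff.comp (hh.comp (contDiff_const.mul contDiff_id))

private theorem compact_ONE (h : ℝ → ℝ) (hc : HasCompactSupport h) (T : ℝ) (hT : 0 < T) :
    HasCompactSupport (g_ONE h T) := by
  have h1 : HasCompactSupport (fun x => h (T⁻¹ * x)) :=
    hc.comp_homeomorph (Homeomorph.mulLeft₀ T⁻¹ (inv_ne_zero hT.ne'))
  exact h1.comp_left (g := fun r : ℝ => (r : ℂ)) Complex.ofReal_zero

private theorem iter_ONE (h : ℝ → ℝ) (hh : ContDiff ℝ ∞ h) (T : ℝ) : ∀ k : ℕ,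
    iteratedDeriv k (g_ONE h T) = fun x => ((T⁻¹ ^ k * iteratedDeriv k h (T⁻¹ * x) : ℝ) : ℂ) := by
  intro k
  induction k with
  | zero =>
    funext x
    rw [iteratedDeriv_zero, iteratedDeriv_zero, pow_zero, one_mul]
    rfl
  | succ k ih =>
    rw [iteratedDeriv_succ, ih]
    funext x
    have hd : HasDerivAt (iteratedDeriv k h) (iteratedDeriv (k + 1) h (T⁻¹ * x)) (T⁻¹ * x) := by
      rw [iteratedDeriv_succ]
      have : Differentiable ℝ (iteratedDeriv k h) :=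
        hh.differentiable_iteratedDeriv k (by exact_mod_cast ENat.natCast_lt_top k)
      exact (this _).hasDerivAt
    have h2 : HasDerivAt (fun x : ℝ => T⁻¹ * x) T⁻¹ x := by
      simpa using (hasDerivAt_id x).const_mul T⁻¹
    have h3 := ((hd.comp x h2).const_mul (T⁻¹ ^ k)).ofReal_comp
    have h4 := h3.deriv
    rw [show (fun x => ((T⁻¹ ^ k * iteratedDeriv k h (T⁻¹ * x) : ℝ) : ℂ)) =
      fun y => ((T⁻¹ ^ k * (iteratedDeriv k h ∘ fun x => T⁻¹ * x) y : ℝ) : ℂ) from rfl, h4]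
    congr 1
    ring

private theorem int_ONE (h : ℝ → ℝ) (T : ℝ) (hT : 0 < T) : ∫ x, g_ONE h T x = ((T * ∫ s, h s : ℝ) : ℂ) := by
  unfold g_ONE
  rw [integral_complex_ofReal]
  congr 1
  rw [Measure.integral_comp_mul_left (fun x => h x) T⁻¹, inv_inv, abs_of_pos hT, smul_eq_mul]

private theorem normint_ONE (h : ℝ → ℝ) (hh : ContDiff ℝ ∞ h) (T : ℝ) (hT : 0 < T) (k : ℕ) :
    ∫ x, ‖iteratedDeriv k (g_ONE h T) x‖ = T ^ (1 - (k : ℤ)) * ∫ s, |iteratedDeriv k h s| := by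
  rw [iter_ONE h hh T k]
  have h1 : ∀ x : ℝ, ‖((T⁻¹ ^ k * iteratedDeriv k h (T⁻¹ * x) : ℝ) : ℂ)‖ =
      T⁻¹ ^ k * |iteratedDeriv k h (T⁻¹ * x)| := by
    intro x
    rw [Complex.norm_real, Real.norm_eq_abs, abs_mul, abs_of_pos (by positivity : 0 < T⁻¹ ^ k)]
  simp_rw [h1]
  rw [integral_const_mul, Measure.integral_comp_mul_left (fun x => |iteratedDeriv k h x|) T⁻¹, inv_inv,
    abs_of_pos hT, smul_eq_mul, ← mul_assoc]
  congr 1
  rw [zpow_sub₀ hT.ne', zpow_one, zpow_natCast, inv_pow]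
  field_simp

private theorem four_ONE (f : ℝ → ℂ) (w : ℝ) : ‖𝓕 f w‖ ≤ ∫ x, ‖f x‖ := by
  rw [Real.fourier_real_eq]
  refine (norm_integral_le_integral_norm _).trans (le_of_eq ?_)
  congr 1
  funext x
  rw [Circle.norm_smul]

theorem hOne : StOne := by
  intro k hk
  have hsum : Summable fun m : ℤ => ‖1 / (m : ℝ) ^ k‖ :=
    (Real.summable_one_div_int_pow.2 (by omega)).norm
  refine ⟨∑' m : ℤ, ‖1 / (m : ℝ) ^ k‖, tsum_nonneg fun _ => norm_nonneg _, ?_⟩
  intro h hh hc T hT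
  have hT0 : 0 < T := by linarith
  set g := g_ONE h T with hg
  have hgd := contDiff_ONE h hh T
  have hgc := compact_ONE h hc T hT0
  set S : 𝓢(ℝ, ℂ) := hgc.toSchwartzMap hgd with hS
  have hSg : (S : ℝ → ℂ) = g := rfl
  have hpo := S.tsum_eq_tsum_fourier 0
  have hF : ∀ n : ℤ, (𝓕 S) (n : ℝ) = 𝓕 g (n : ℝ) := fun n => rfl
  set B : ℝ := T ^ (1 - (k : ℤ)) * ∫ s, |iteratedDeriv k h s| with hB
  have hB0 : 0 ≤ B := by
    rw [hB]
    exact mul_nonneg (by positivity) (integral_nonneg fun _ => abs_nonneg _)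
  -- decay of the Fourier transform
  have hdec : ∀ m : ℤ, m ≠ 0 → ‖𝓕 g (m : ℝ)‖ ≤ ‖1 / (m : ℝ) ^ k‖ * B := by
    intro m hm
    have h1 := congrFun (Real.fourier_iteratedDeriv (f := g) (N := ⊤) (n := k) hgd
      (fun n _ => by
        have : HasCompactSupport (iteratedDeriv n g) := by
          have h3 : iteratedDeriv n g = fun x => (iteratedFDeriv ℝ n g x) fun _ => 1 := rfl
          rw [h3]
          exact (hgc.iteratedFDeriv n).comp_left
            (g := fun L : ContinuousMultilinearMap ℝ (fun _ : Fin n => ℝ) ℂ => L fun _ => 1)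
            rfl
        exact (hgd.continuous_iteratedDeriv n (by exact_mod_cast le_top)).integrable_of_hasCompactSupport
          this) le_top) (m : ℝ)
    have h2 := four_ONE (iteratedDeriv k g) (m : ℝ)
    rw [normint_ONE h hh T hT0 k, ← hB, h1, norm_smul, norm_pow] at h2
    have hm' : (0 : ℝ) < |(m : ℝ)| := abs_pos.2 (by exact_mod_cast hm)
    have h4 : |(m : ℝ)| ≤ ‖(2 * Real.pi * Complex.I * ((m : ℝ) : ℂ) : ℂ)‖ := by
      rw [norm_mul, norm_mul, norm_mul, Complex.norm_I, Complex.norm_real, Complex.norm_real,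
        Real.norm_eq_abs, Real.norm_eq_abs, abs_of_pos Real.pi_pos, Complex.norm_ofNat, mul_one]
      have : (1 : ℝ) ≤ 2 * Real.pi := by linarith [Real.pi_gt_three]
      nlinarith
    have h5 : |(m : ℝ)| ^ k * ‖𝓕 g (m : ℝ)‖ ≤ B :=
      (mul_le_mul_of_nonneg_right (pow_le_pow_left₀ hm'.le h4 k) (norm_nonneg _)).trans h2
    rw [norm_div, norm_one, norm_pow, Real.norm_eq_abs, one_div, inv_mul_eq_div,
      le_div_iff₀ (by positivity), mul_comm]
    exact h5
  have hFsum : Summable fun n : ℤ => 𝓕 g (n : ℝ) :=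
    summable_of_isBigO (Real.summable_abs_int_rpow one_lt_two)
      (((𝓕 S).isBigO_cocompact_rpow (-2)).comp_tendsto Int.tendsto_coe_cofinite)
  have hL : ∑' n : ℤ, S (0 + (n : ℝ)) = ((∑' j : ℤ, h (j / T) : ℝ) : ℂ) := by
    rw [Complex.ofReal_tsum]
    refine tsum_congr fun n => ?_
    rw [hSg, hg]
    show ((h (T⁻¹ * (0 + (n : ℝ))) : ℝ) : ℂ) = _
    rw [zero_add, inv_mul_eq_div]
  have hR : ∑' n : ℤ, (𝓕 S) (n : ℝ) * fourier n ((0 : ℝ) : UnitAddCircle) = ∑' n : ℤ, 𝓕 g (n : ℝ) := by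
    refine tsum_congr fun n => ?_
    rw [hF n]
    have : fourier n (((0 : ℝ) : UnitAddCircle)) = 1 := by
      simp
    rw [this, mul_one]
  have h0 : 𝓕 g ((0 : ℤ) : ℝ) = ((T * ∫ s, h s : ℝ) : ℂ) := by
    rw [Real.fourier_real_eq, ← int_ONE h T hT0]
    simp [hg]
  have hmain : ((∑' j : ℤ, h (j / T) - T * ∫ s, h s : ℝ) : ℂ) =
      ∑' n : ℤ, if n = 0 then 0 else 𝓕 g (n : ℝ) := by
    rw [Complex.ofReal_sub, ← hL, hpo, hR, hFsum.tsum_eq_add_tsum_ite 0, h0]
    ring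
  have hnorm : ‖((∑' j : ℤ, h (j / T) - T * ∫ s, h s : ℝ) : ℂ)‖ ≤
      (∑' m : ℤ, ‖1 / (m : ℝ) ^ k‖) * B := by
    rw [hmain]
    refine tsum_of_norm_bounded (hsum.hasSum.mul_right B) fun n => ?_
    split_ifs with hn
    · rw [norm_zero]
      positivity
    · exact hdec n hn
  rw [Complex.norm_real, Real.norm_eq_abs] at hnorm
  rw [mul_assoc, ← hB]
  exact hnorm

end Pool.Agent.Helper27.SC
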