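import Pool.Agent.Helper27.SC.StP

set_option autoImplicit false

/-!
# Project SC: module PROF
-/

open NumberField
open Pool.Agent.Results.MP_f07b9f_nt.Extremal (P2 MaxInt fam Theta)

universe u

namespace Pool.Agent.Helper27.SC

namespace ProfMod

variable {K : Type u} [Field K] [NumberField K]

/-- the finite set of members -/
noncomputable def hf (H : Set (Set (Ideal (𝓞 K)))) (hH : H ⊆ {S | S ⊆ P2 K}) :
    Finset (Set (Ideal (𝓞 K))) :=
  (((Pool.Agent.Results.MP_f07b9f_nt.Extremal.P2_finite K).finite_subsets.subset hH) :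
    H.Finite).toFinset

theorem mem_hf {H : Set (Set (Ideal (𝓞 K)))} (hH : H ⊆ {S | S ⊆ P2 K}) (S : Set (Ideal (𝓞 K))) :
    S ∈ hf H hH ↔ S ∈ H := by simp [hf]

theorem prof_eq {H : Set (Set (Ideal (𝓞 K)))} (hH : H ⊆ {S | S ⊆ P2 K}) (j : ℕ) :
    prof H j = ((hf H hH).filter fun S => S.ncard = j).card := by
  unfold prof
  rw [← Set.ncard_coe_finset]
  congr 1
  ext S
  simp [mem_hf]

theorem ncard_le {S : Set (Ideal (𝓞 K))} (hS : S ⊆ P2 K) : S.ncard ≤ (P2 K).ncard :=
  Set.ncard_le_ncard hS (Pool.Agent.Results.MP_f07b9f_nt.Extremal.P2_finite K)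

theorem sum_hf {H : Set (Set (Ideal (𝓞 K)))} (hH : H ⊆ {S | S ⊆ P2 K}) (F : ℕ → ℝ) :
    ∑ S ∈ hf H hH, F S.ncard = ∑ j ∈ Finset.range ((P2 K).ncard + 1), prof H j * F j := by
  rw [← Finset.sum_fiberwise_of_maps_to (g := fun S : Set (Ideal (𝓞 K)) => S.ncard)
    (t := Finset.range ((P2 K).ncard + 1))]
  · refine Finset.sum_congr rfl fun j _ => ?_
    rw [Finset.sum_congr rfl (g := fun _ => F j)
      (fun S hS => by rw [(Finset.mem_filter.1 hS).2]), Finset.sum_const, nsmul_eq_mul,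
      prof_eq hH]
  · intro S hS
    rw [mem_hf] at hS
    have := ncard_le (hH hS)
    simp only [Finset.mem_range]
    omega

theorem inner (k j : ℕ) (hj : j ≤ k) (g : ℕ → ℝ) :
    ∑ r ∈ Finset.range (k - j + 1), (-1 : ℝ) ^ r * ((k - j).choose r : ℝ) * g (j + r) =
      ∑ i ∈ Finset.range (k + 1),
        if j ≤ i then (-1 : ℝ) ^ (i - j) * ((k - j).choose (i - j) : ℝ) * g i else 0 := by
  rw [← Finset.sum_filter]
  refine Finset.sum_bij' (fun r _ => j + r) (fun i _ => i - j) ?_ ?_ ?_ ?_ ?_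
  · intro r hr
    simp only [Finset.mem_range, Finset.mem_filter] at hr ⊢
    omega
  · intro i hi
    simp only [Finset.mem_range, Finset.mem_filter] at hi ⊢
    omega
  · intro r hr
    simp
  · intro i hi
    simp only [Finset.mem_range, Finset.mem_filter] at hi
    show j + (i - j) = i
    omega
  · intro r hr
    simp

/-- sums against the coefficients -/
theorem coef_sum {H : Set (Set (Ideal (𝓞 K)))} (hH : H ⊆ {S | S ⊆ P2 K}) (g : ℕ → ℝ) :
    ∑ i ∈ Finset.range ((P2 K).ncard + 1), coef H i * g i =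
      ∑ S ∈ hf H hH, ∑ r ∈ Finset.range ((P2 K).ncard - S.ncard + 1),
        (-1 : ℝ) ^ r * (((P2 K).ncard - S.ncard).choose r : ℝ) * g (S.ncard + r) := by
  set k := (P2 K).ncard with hk
  rw [sum_hf hH (fun s => ∑ r ∈ Finset.range (k - s + 1),
        (-1 : ℝ) ^ r * ((k - s).choose r : ℝ) * g (s + r)), ← hk]
  have e1 : ∀ j ∈ Finset.range (k + 1), (prof H j : ℝ) * ∑ r ∈ Finset.range (k - j + 1),
        (-1 : ℝ) ^ r * ((k - j).choose r : ℝ) * g (j + r) =
      ∑ i ∈ Finset.range (k + 1), if j ≤ i then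
        (-1 : ℝ) ^ (i - j) * ((k - j).choose (i - j) : ℝ) * prof H j * g i else 0 := by
    intro j hj
    rw [inner k j (by simpa [Nat.lt_succ_iff] using hj) g, Finset.mul_sum]
    refine Finset.sum_congr rfl fun i _ => ?_
    split_ifs <;> ring
  rw [Finset.sum_congr rfl e1, Finset.sum_comm]
  refine Finset.sum_congr rfl fun i hi => ?_
  rw [← Finset.sum_filter, coef, Finset.sum_mul, ← hk]
  refine Finset.sum_congr ?_ fun j _ => rfl
  ext j
  simp only [Finset.mem_range, Finset.mem_filter] at hi ⊢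
  omega

theorem alt_sum (m : ℕ) (z : ℝ) :
    ∑ r ∈ Finset.range (m + 1), (-1 : ℝ) ^ r * (m.choose r : ℝ) * z ^ r = (1 - z) ^ m := by
  have := add_pow (-z) 1 m
  rw [show (1 - z) = -z + 1 by ring, this]
  refine Finset.sum_congr rfl fun r _ => ?_
  rw [one_pow, neg_pow]
  ring

theorem gen {H : Set (Set (Ideal (𝓞 K)))} (hH : H ⊆ {S | S ⊆ P2 K}) (z : ℝ) :
    ∑ i ∈ Finset.range ((P2 K).ncard + 1), coef H i * z ^ i =
      ∑ S ∈ hf H hH, z ^ S.ncard * (1 - z) ^ ((P2 K).ncard - S.ncard) := by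
  rw [coef_sum hH]
  refine Finset.sum_congr rfl fun S _ => ?_
  rw [← alt_sum, Finset.mul_sum]
  refine Finset.sum_congr rfl fun r _ => ?_
  rw [pow_add]
  ring

theorem sub_of {H : Set (Set (Ideal (𝓞 K)))} (hH : MaxInt K H) : H ⊆ {S | S ⊆ P2 K} := hH.1

theorem empty_not_mem {H : Set (Set (Ideal (𝓞 K)))} (hH : MaxInt K H) : (∅ : Set (Ideal (𝓞 K))) ∉ H :=
  fun h => by
    obtain ⟨p, hp, -⟩ := hH.2.1 _ h _ h
    exact hp

theorem full_mem {H : Set (Set (Ideal (𝓞 K)))} (hH : MaxInt K H) : P2 K ∈ H := by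
  rcases hH.2.2 (P2 K) subset_rfl with h | h
  · exact h
  · rw [Set.sdiff_self] at h
    exact absurd h (empty_not_mem hH)

theorem sum_one {H : Set (Set (Ideal (𝓞 K)))} (hH : MaxInt K H) :
    ∑ i ∈ Finset.range ((P2 K).ncard + 1), coef H i = 1 := by
  have h := gen (sub_of hH) 1
  simp only [one_pow, mul_one, sub_self, one_mul] at h
  rw [h, Finset.sum_eq_single (P2 K)]
  · simp
  · intro S hS hne
    rw [mem_hf] at hS
    have hlt : S.ncard < (P2 K).ncard :=
      Set.ncard_lt_ncard (Set.ssubset_iff_subset_ne.2 ⟨hH.1 S hS, hne⟩)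
        (Pool.Agent.Results.MP_f07b9f_nt.Extremal.P2_finite K)
    rw [zero_pow (by omega)]
  · intro h
    exact absurd ((mem_hf (sub_of hH) _).2 (full_mem hH)) h

theorem card_hf {H : Set (Set (Ideal (𝓞 K)))} (hH : MaxInt K H) :
    2 * (hf H (sub_of hH)).card = 2 ^ (P2 K).ncard := by
  classical
  have hfin := Pool.Agent.Results.MP_f07b9f_nt.Extremal.P2_finite K
  have hU : (hf H (sub_of hH)) ∪ (hf H (sub_of hH)).image (fun S => P2 K \ S) =
      hf {S | S ⊆ P2 K} subset_rfl := by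
    ext S
    simp only [Finset.mem_union, Finset.mem_image, mem_hf, Set.mem_ofPred_eq]
    constructor
    · rintro (h | ⟨T, hT, rfl⟩)
      · exact hH.1 S h
      · exact Set.sdiff_subset
    · intro h
      rcases hH.2.2 S h with h' | h'
      · exact Or.inl h'
      · exact Or.inr ⟨_, h', Set.sdiff_sdiff_cancel_left h⟩
  have hD : Disjoint (hf H (sub_of hH)) ((hf H (sub_of hH)).image (fun S => P2 K \ S)) := by
    rw [Finset.disjoint_left]
    intro S hS hS'
    simp only [Finset.mem_image, mem_hf] at hS hS'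
    obtain ⟨T, hT, rfl⟩ := hS'
    obtain ⟨p, hp1, hp2⟩ := hH.2.1 _ hS _ hT
    exact hp1.2 hp2
  have hI : ((hf H (sub_of hH)).image (fun S => P2 K \ S)).card = (hf H (sub_of hH)).card := by
    refine Finset.card_image_of_injOn ?_
    intro S hS T hT h
    simp only [Finset.mem_coe, mem_hf] at hS hT
    have h' : P2 K \ (P2 K \ S) = P2 K \ (P2 K \ T) := by
      simpa using congrArg (fun X => P2 K \ X) h
    rwa [Set.sdiff_sdiff_cancel_left (hH.1 S hS), Set.sdiff_sdiff_cancel_left (hH.1 T hT)] at h'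
  have h1 := Finset.card_union_of_disjoint hD
  rw [hU, hI] at h1
  have h2 : (hf {S : Set (Ideal (𝓞 K)) | S ⊆ P2 K} subset_rfl).card = 2 ^ (P2 K).ncard := by
    rw [← Set.ncard_powerset (P2 K) hfin, ← Set.ncard_coe_finset]
    congr 1
    ext S
    simp [mem_hf]
  omega

theorem sum_half {H : Set (Set (Ideal (𝓞 K)))} (hH : MaxInt K H) (hne : (P2 K).Nonempty) :
    ∑ i ∈ Finset.range ((P2 K).ncard + 1), coef H i / 2 ^ i = 1 / 2 := by
  have h := gen (sub_of hH) (1 / 2)
  have e : ∀ i ∈ Finset.range ((P2 K).ncard + 1), coef H i / 2 ^ i = coef H i * (1 / 2) ^ i := by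
    intro i _
    rw [one_div, inv_pow, div_eq_mul_inv]
  rw [Finset.sum_congr rfl e, h]
  have e2 : ∀ S ∈ hf H (sub_of hH), (1 / 2 : ℝ) ^ S.ncard * (1 - 1 / 2) ^ ((P2 K).ncard - S.ncard)
      = (1 / 2) ^ (P2 K).ncard := by
    intro S hS
    rw [mem_hf] at hS
    rw [show (1 - 1 / 2 : ℝ) = 1 / 2 by norm_num, ← pow_add]
    congr 1
    have := ncard_le (hH.1 S hS)
    omega
  rw [Finset.sum_congr rfl e2, Finset.sum_const, nsmul_eq_mul]
  have hc : (2 : ℝ) * ((hf H (sub_of hH)).card : ℝ) = 2 ^ (P2 K).ncard := by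
    exact_mod_cast card_hf hH
  have hp : (0 : ℝ) < 2 ^ (P2 K).ncard := by positivity
  rw [one_div, inv_pow]
  field_simp
  linarith

theorem size {H : Set (Set (Ideal (𝓞 K)))} (hH : MaxInt K H) (x : ℝ) (hx : 0 ≤ x) :
    ((fam K H x).ncard : ℝ) = D K (P2 K).ncard (coef H) x := by
  unfold D
  rw [coef_sum (sub_of hH) (fun i => (Jc K (x / 2 ^ i) : ℝ))]
  have h := Pool.Agent.Results.MP_f07b9f_nt.Extremal.part2 K x hx H hH
  have h' : ((fam K H x).ncard : ℝ) = (((fam K H x).ncard : ℤ) : ℝ) := by push_cast; rfl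
  have hs : (∑ᶠ S ∈ H, ∑ j ∈ Finset.range ((P2 K).ncard - S.ncard + 1),
        (-1 : ℤ) ^ j * (((P2 K).ncard - S.ncard).choose j : ℤ) *
          Pool.Agent.Results.MP_f07b9f_nt.Extremal.Jc K (x / 2 ^ (S.ncard + j))) =
      ∑ S ∈ hf H (sub_of hH), ∑ j ∈ Finset.range ((P2 K).ncard - S.ncard + 1),
        (-1 : ℤ) ^ j * (((P2 K).ncard - S.ncard).choose j : ℤ) *
          Pool.Agent.Results.MP_f07b9f_nt.Extremal.Jc K (x / 2 ^ (S.ncard + j)) := by
    rw [← finsum_mem_finset_eq_sum]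
    refine finsum_mem_congr ?_ fun _ _ => rfl
    ext S
    simp [mem_hf]
  rw [h', h, hs]
  push_cast
  rfl

theorem coef_diff {H H' : Set (Set (Ideal (𝓞 K)))} (hH : MaxInt K H) (hH' : MaxInt K H')
    (hp : ∃ j, prof H j ≠ prof H' j) : ∃ i, i ≤ (P2 K).ncard ∧ coef H i ≠ coef H' i := by
  classical
  have hz : ∀ {H : Set (Set (Ideal (𝓞 K)))}, MaxInt K H → ∀ j, (P2 K).ncard < j → prof H j = 0 := by
    intro H hH j hj
    rw [prof_eq (sub_of hH), Finset.card_eq_zero, Finset.filter_eq_empty_iff]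
    intro S hS h
    rw [mem_hf] at hS
    have := ncard_le (hH.1 S hS)
    omega
  refine ⟨Nat.find hp, ?_, ?_⟩
  · by_contra hlt
    push Not at hlt
    exact Nat.find_spec hp (by rw [hz hH _ hlt, hz hH' _ hlt])
  · set i := Nat.find hp with hi
    have hmin : ∀ j < i, prof H j = prof H' j := fun j hj => by
      have := Nat.find_min hp hj
      push Not at this
      exact this
    unfold coef
    rw [Finset.sum_range_succ, Finset.sum_range_succ]
    have : ∑ j ∈ Finset.range i, (-1 : ℝ) ^ (i - j) * (((P2 K).ncard - j).choose (i - j) : ℝ) *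
        (prof H j : ℝ) = ∑ j ∈ Finset.range i,
        (-1 : ℝ) ^ (i - j) * (((P2 K).ncard - j).choose (i - j) : ℝ) * (prof H' j : ℝ) :=
      Finset.sum_congr rfl fun j hj => by rw [hmin j (Finset.mem_range.1 hj)]
    rw [this]
    intro h
    simp only [Nat.sub_self, pow_zero, Nat.choose_zero_right, Nat.cast_one, mul_one, one_mul,
      add_right_inj, Nat.cast_inj] at h
    exact Nat.find_spec hp h

end ProfMod

open ProfMod in
theorem hProf : StProf.{u} := by
  intro K _ _ hne H hH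
  exact ⟨fun x hx => size hH x hx, sum_one hH, sum_half hH hne, fun H' hH' hp => coef_diff hH hH' hp⟩

end Pool.Agent.Helper27.SC
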