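import Pool.Agent.Helper27.SC.St

/-!
# Project SC (MP_f07b9f_nt), module PU: smooth partition of unity for a lattice
-/

set_option autoImplicit false

open scoped ContDiff nonZeroDivisors
open NumberField MeasureTheory

universe u

namespace Pool.Agent.Helper27.SC

variable {V : Type u} [NormedAddCommGroup V] [NormedSpace ℝ V] [FiniteDimensional ℝ V]

private theorem cover_PU (L : Submodule ℤ V) [DiscreteTopology L] [IsZLattice ℝ L] :
    ∃ r : ℝ, 0 ≤ r ∧ ∀ v : V, ∃ ℓ : L, ‖(ℓ : V) + v‖ ≤ r := by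
  have : Module.Finite ℤ L := ZLattice.module_finite ℝ L
  have : Module.Free ℤ L := ZLattice.module_free ℝ L
  let b₀ := Module.Free.chooseBasis ℤ L
  let b := b₀.ofZLatticeBasis ℝ L
  refine ⟨∑ i, ‖b i‖, Finset.sum_nonneg fun i _ => norm_nonneg _, fun v => ?_⟩
  have hmem : -((ZSpan.floor b v : V)) ∈ L := by
    have h := (ZSpan.floor b v).2
    have hs : Submodule.span ℤ (Set.range b) ≤ L := (b₀.ofZLatticeBasis_span ℝ).le
    exact L.neg_mem (hs h)
  refine ⟨⟨_, hmem⟩, ?_⟩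
  have := ZSpan.norm_fract_le b v
  rw [ZSpan.fract_apply, sub_eq_neg_add] at this
  exact this

private theorem fin_PU (L : Submodule ℤ V) [DiscreteTopology L] (R : ℝ) :
    {ℓ : L | ‖(ℓ : V)‖ ≤ R}.Finite := by
  have H : IsClosed (X := V) L := @AddSubgroup.isClosed_of_discrete _ _ _ _ _
    L.toAddSubgroup (inferInstanceAs (DiscreteTopology L))
  refine ((Metric.finite_isBounded_inter_isClosed DiscreteTopology.isDiscrete
    (Metric.isBounded_closedBall (x := (0 : V)) (r := R)) H).preimage_embedding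
    (.subtype _)).subset ?_
  intro t ht
  refine ⟨?_, t.2⟩
  rw [Metric.mem_closedBall, dist_zero_right]
  exact ht

theorem hPU : StPU.{u} := by
  intro V _ _ _ L _ _
  classical
  obtain ⟨r, hr, hcov⟩ := cover_PU L
  let β : ContDiffBump (0 : V) := ⟨r + 1, r + 2, by linarith, by linarith⟩
  have hsupp : ∀ x : V, β x ≠ 0 → ‖x‖ ≤ r + 2 := by
    intro x hx
    have h : x ∈ Function.support β := hx
    rw [β.support_eq, Metric.mem_ball, dist_zero_right] at h
    exact h.le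
  -- local finiteness
  have hloc : ∀ v₀ : V, ∃ F : Finset L, ∀ v : V, ‖v - v₀‖ < 1 → ∀ ℓ : L, ℓ ∉ F →
      β ((ℓ : V) + v) = 0 := by
    intro v₀
    refine ⟨(fin_PU L (r + 2 + (‖v₀‖ + 1))).toFinset, fun v hv ℓ hℓ => ?_⟩
    by_contra h
    apply hℓ
    rw [Set.Finite.mem_toFinset]
    show ‖(ℓ : V)‖ ≤ _
    have h1 := hsupp _ h
    have h2 : (ℓ : V) = ((ℓ : V) + v) - (v - v₀) - v₀ := by abel
    calc ‖(ℓ : V)‖ = ‖((ℓ : V) + v) - (v - v₀) - v₀‖ := by rw [← h2]
      _ ≤ ‖((ℓ : V) + v) - (v - v₀)‖ + ‖v₀‖ := norm_sub_le _ _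
      _ ≤ ‖(ℓ : V) + v‖ + ‖v - v₀‖ + ‖v₀‖ := by gcongr; exact norm_sub_le _ _
      _ ≤ r + 2 + (‖v₀‖ + 1) := by linarith
  have hsum : ∀ v : V, Summable fun ℓ : L => β ((ℓ : V) + v) := by
    intro v
    obtain ⟨F, hF⟩ := hloc v
    exact summable_of_ne_finset_zero (s := F) fun ℓ hℓ => hF v (by simp) ℓ hℓ
  set S : V → ℝ := fun v => ∑' ℓ : L, β ((ℓ : V) + v) with hS
  have hSpos : ∀ v, 1 ≤ S v := by
    intro v
    obtain ⟨ℓ, hℓ⟩ := hcov v
    have h1 : β ((ℓ : V) + v) = 1 := by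
      apply β.one_of_mem_closedBall
      rw [Metric.mem_closedBall, dist_zero_right]
      show _ ≤ r + 1
      linarith
    rw [← h1]
    exact (hsum v).le_tsum ℓ fun _ _ => β.nonneg
  have hSper : ∀ (ℓ₀ : L) (v : V), S ((ℓ₀ : V) + v) = S v := by
    intro ℓ₀ v
    simp only [hS]
    rw [← (Equiv.addRight ℓ₀).tsum_eq (fun ℓ : L => β ((ℓ : V) + v))]
    refine tsum_congr fun ℓ => ?_
    rw [Equiv.coe_addRight, Submodule.coe_add, add_assoc]
  have hSsm : ContDiff ℝ ∞ S := by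
    rw [contDiff_iff_contDiffAt]
    intro v₀
    obtain ⟨F, hF⟩ := hloc v₀
    have h1 : ContDiff ℝ ∞ fun v : V => ∑ ℓ ∈ F, β ((ℓ : V) + v) := by
      refine ContDiff.sum fun ℓ _ => ?_
      exact β.contDiff.comp (contDiff_const.add contDiff_id)
    refine h1.contDiffAt.congr_of_eventuallyEq ?_
    filter_upwards [Metric.ball_mem_nhds v₀ one_pos] with v hv
    rw [Metric.mem_ball, dist_eq_norm] at hv
    exact tsum_eq_sum fun ℓ hℓ => hF v hv ℓ hℓ
  refine ⟨fun v => β v / S v, β.contDiff.div hSsm fun v => ?_, ?_, fun v => ?_⟩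
  · exact (lt_of_lt_of_le one_pos (hSpos v)).ne'
  · refine HasCompactSupport.intro (isCompact_closedBall (0 : V) (r + 2)) fun v hv => ?_
    have : β v = 0 := by
      by_contra h
      apply hv
      rw [Metric.mem_closedBall, dist_zero_right]
      exact hsupp v h
    rw [this, zero_div]
  · have h1 : ∀ ℓ : L, β ((ℓ : V) + v) / S ((ℓ : V) + v) = β ((ℓ : V) + v) / S v := by
      intro ℓ
      rw [hSper]
    simp only [h1]
    rw [tsum_div_const]
    exact div_self (lt_of_lt_of_le one_pos (hSpos v)).ne'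

end Pool.Agent.Helper27.SC
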