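import Pool.Agent.Helper27.SC.St

set_option autoImplicit false

/-!
# Project SC: module SGN
-/

open NumberField MeasureTheory Set

universe u

namespace Pool.Agent.Helper27.SC

namespace SgnMod

variable (K : Type u) [Field K] [NumberField K]

theorem fin_le (x : ℝ) : {I : Ideal (𝓞 K) | I ≠ ⊥ ∧ (Ideal.absNorm I : ℝ) ≤ x}.Finite := by
  refine (Ideal.finite_setOfPred_absNorm_le (S := 𝓞 K) ⌊x⌋₊).subset fun I hI => ?_
  exact Nat.le_floor hI.2

theorem Jc_mono {x y : ℝ} (h : x ≤ y) : Jc K x ≤ Jc K y :=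
  Set.ncard_le_ncard (fun _ hI => ⟨hI.1, hI.2.trans h⟩) (fin_le K y)

theorem Jc_floor (i n : ℕ) (y : ℝ) (h1 : (n : ℝ) ≤ y) (h2 : y < n + 1) :
    Jc K (y / 2 ^ i) = Jc K (n / 2 ^ i) := by
  unfold Jc
  congr 1
  ext I
  have hp : (0 : ℝ) < 2 ^ i := by positivity
  simp only [mem_ofPred_eq, le_div_iff₀ hp]
  refine and_congr_right fun _ => ?_
  constructor
  · intro h
    have h3 : (((Ideal.absNorm I * 2 ^ i : ℕ)) : ℝ) < ((n + 1 : ℕ) : ℝ) := by
      push_cast
      linarith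
    have h4 : Ideal.absNorm I * 2 ^ i < n + 1 := by exact_mod_cast h3
    have h5 : Ideal.absNorm I * 2 ^ i ≤ n := by omega
    exact_mod_cast h5
  · intro h
    linarith

theorem D_floor (m : ℕ) (c : ℕ → ℝ) (n : ℕ) (y : ℝ) (h1 : (n : ℝ) ≤ y) (h2 : y < n + 1) :
    D K m c y = D K m c n := by
  unfold D
  exact Finset.sum_congr rfl fun i _ => by rw [Jc_floor K i n y h1 h2]

theorem D_int (m : ℕ) (c : ℕ → ℝ) (hc : ∀ i, ∃ z : ℤ, c i = z) (x : ℝ) :
    ∃ z : ℤ, D K m c x = z := by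
  choose z hz using hc
  refine ⟨∑ i ∈ Finset.range (m + 1), z i * (Jc K (x / 2 ^ i) : ℤ), ?_⟩
  unfold D
  push_cast
  exact Finset.sum_congr rfl fun i _ => by rw [hz]

theorem D_int_on (m : ℕ) (c : ℕ → ℝ) (a b : ℝ) : IntegrableOn (D K m c) (Icc a b) := by
  have e : D K m c = fun x => ∑ i ∈ Finset.range (m + 1), c i * Jc K (x / 2 ^ i) := rfl
  rw [e]
  refine integrable_finsetSum _ fun i _ => ?_
  refine Integrable.const_mul ?_ _
  refine MonotoneOn.integrableOn_isCompact isCompact_Icc ?_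
  intro x _ y _ hxy
  have : (0 : ℝ) < 2 ^ i := by positivity
  have h := Jc_mono K (div_le_div_of_nonneg_right hxy this.le)
  show (Jc K (x / 2 ^ i) : ℝ) ≤ (Jc K (y / 2 ^ i) : ℝ)
  exact Nat.cast_le.2 h

/-- the average is bounded below by one value -/
theorem lower (φ : ℝ → ℝ) (hφc : Continuous φ) (hφ0 : ∀ u, 0 ≤ φ u)
    (hφ1 : ∀ u, 1 ≤ u → u ≤ 2 → φ u = 1) (hφs : ∀ u, φ u ≠ 0 → 1 / 2 ≤ u ∧ u ≤ 4)
    (m : ℕ) (c : ℕ → ℝ) (x₀ : ℝ) (h0 : ∀ x, x₀ ≤ x → 0 ≤ D K m c x) (n : ℕ)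
    (hn1 : 1 ≤ n) (hn : 2 * x₀ ≤ n) (hD : 1 ≤ D K m c n) :
    1 / ((n : ℝ) + 1) ≤ ∫ y in Ioi (0 : ℝ), D K m c y * φ (y / n) / y := by
  have hnr : (1 : ℝ) ≤ n := by exact_mod_cast hn1
  have hn0 : (0 : ℝ) < n := by linarith
  set f : ℝ → ℝ := fun y => D K m c y * φ (y / n) / y with hf
  have hsupp : Function.support f ⊆ Icc ((n : ℝ) / 2) (4 * n) := by
    intro y hy
    have : φ (y / n) ≠ 0 := by
      intro h
      apply hy
      simp only [hf, h, mul_zero, zero_div]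
    obtain ⟨h1, h2⟩ := hφs _ this
    rw [le_div_iff₀ hn0] at h1
    rw [div_le_iff₀ hn0] at h2
    exact ⟨by linarith, by linarith⟩
  have hint : Integrable f := by
    rw [← integrableOn_iff_integrable_of_support_subset hsupp]
    have e : f = fun y => D K m c y * (φ (y / n) / y) := by
      funext y
      simp only [hf, mul_div_assoc]
    rw [e]
    refine (D_int_on K m c _ _).mul_continuousOn ?_ isCompact_Icc
    refine ContinuousOn.div ?_ continuousOn_id ?_
    · exact (hφc.comp (continuous_id.div_const _)).continuousOn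
    · intro y hy
      have := hy.1
      have h : (0 : ℝ) < y := by linarith
      exact h.ne'
  have hnn : ∀ y, 0 < y → 0 ≤ f y := by
    intro y hy
    by_cases h : φ (y / n) = 0
    · simp only [hf, h, mul_zero, zero_div, le_refl]
    · obtain ⟨h1, h2⟩ := hφs _ h
      rw [le_div_iff₀ hn0] at h1
      exact div_nonneg (mul_nonneg (h0 y (by linarith)) (hφ0 _)) hy.le
  have hsub : Ico (n : ℝ) (n + 1) ⊆ Ioi 0 := fun y hy => lt_of_lt_of_le hn0 hy.1
  calc 1 / ((n : ℝ) + 1) = ∫ y in Ico (n : ℝ) (n + 1), (1 / ((n : ℝ) + 1)) := by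
        rw [setIntegral_const, Real.volume_real_Ico_of_le (by linarith)]
        simp
    _ ≤ ∫ y in Ico (n : ℝ) (n + 1), f y := by
        refine setIntegral_mono_on ?_ hint.integrableOn measurableSet_Ico ?_
        · exact integrableOn_const (by simp)
        · intro y hy
          have hy0 : 0 < y := hsub hy
          have e1 : φ (y / n) = 1 := by
            apply hφ1
            · rw [le_div_iff₀ hn0]; linarith [hy.1]
            · rw [div_le_iff₀ hn0]; linarith [hy.2]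
          have e2 : D K m c y = D K m c n := D_floor K m c n y hy.1 hy.2
          simp only [hf, e1, e2, mul_one]
          exact div_le_div₀ (by linarith) hD hy0 hy.2.le
    _ ≤ ∫ y in Ioi (0 : ℝ), f y := by
        refine setIntegral_mono_set hint.integrableOn ?_ hsub.eventuallyLE
        rw [Filter.EventuallyLE, ae_restrict_iff' measurableSet_Ioi]
        exact Filter.Eventually.of_forall fun y hy => hnn y hy

/-- ideals of large odd norm -/
theorem odd_norm (B : ℕ) : ∃ q : ℕ, B ≤ q ∧ Odd q ∧ ∃ I : Ideal (𝓞 K), I ≠ ⊥ ∧ Ideal.absNorm I = q := by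
  have hd : 0 < Module.finrank ℚ K := Module.finrank_pos
  refine ⟨(3 ^ B) ^ Module.finrank ℚ K, ?_, ?_, Ideal.span {((3 ^ B : ℕ) : 𝓞 K)}, ?_, ?_⟩
  · calc B ≤ 3 ^ B := (Nat.lt_pow_self (by norm_num)).le
      _ = (3 ^ B) ^ 1 := (pow_one _).symm
      _ ≤ (3 ^ B) ^ Module.finrank ℚ K := Nat.pow_le_pow_right (by positivity) hd
  · exact (Odd.pow (by decide)).pow
  · rw [Ne, Ideal.span_singleton_eq_bot]
    exact_mod_cast (by positivity : (3 ^ B : ℕ) ≠ 0)
  · rw [Ideal.absNorm_span_singleton, show ((3 ^ B : ℕ) : 𝓞 K) = algebraMap ℤ (𝓞 K) ((3 ^ B : ℕ) : ℤ) by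
      simp, Algebra.norm_algebraMap, NumberField.RingOfIntegers.rank]
    simp [Int.natAbs_pow]

theorem jump (m : ℕ) (c : ℕ → ℝ) (i₀ q : ℕ) (hi₀ : i₀ ≤ m) (hc : c i₀ ≠ 0) (hmin : ∀ i < i₀, c i = 0)
    (hq : Odd q) (I₀ : Ideal (𝓞 K)) (hI₀ : I₀ ≠ ⊥) (hN : Ideal.absNorm I₀ = q) (n : ℕ)
    (hn : n + 1 = 2 ^ i₀ * q) : D K m c ((n + 1 : ℕ) : ℝ) ≠ D K m c n := by
  have hbig : ∀ i ∈ Finset.range (m + 1), i ≠ i₀ →
      c i * (Jc K (((n + 1 : ℕ) : ℝ) / 2 ^ i) : ℝ) = c i * (Jc K ((n : ℝ) / 2 ^ i) : ℝ) := by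
    intro i _ hne
    rcases lt_or_gt_of_ne hne with h | h
    · rw [hmin i h, zero_mul, zero_mul]
    · congr 2
      unfold Jc
      congr 1
      ext I
      have hp : (0 : ℝ) < 2 ^ i := by positivity
      simp only [mem_ofPred_eq, le_div_iff₀ hp]
      refine and_congr_right fun _ => ?_
      have hne' : Ideal.absNorm I * 2 ^ i ≠ n + 1 := by
        intro he
        rw [hn] at he
        obtain ⟨r, rfl⟩ := Nat.exists_eq_add_of_lt h
        have h1 : 2 ^ i₀ * (Ideal.absNorm I * 2 ^ (r + 1)) = 2 ^ i₀ * q := by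
          rw [← he]
          ring
        have h2 := Nat.eq_of_mul_eq_mul_left (by positivity) h1
        rw [← h2] at hq
        have : Even (Ideal.absNorm I * 2 ^ (r + 1)) :=
          Even.mul_left (Even.pow_of_ne_zero even_two (by omega)) _
        exact (Nat.not_even_iff_odd.2 hq) this
      constructor
      · intro h
        have h3 : Ideal.absNorm I * 2 ^ i ≤ n + 1 := by exact_mod_cast h
        have h4 : Ideal.absNorm I * 2 ^ i ≤ n := by omega
        exact_mod_cast h4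
      · intro h
        push_cast
        linarith
  have hstrict : Jc K ((n : ℝ) / 2 ^ i₀) < Jc K (((n + 1 : ℕ) : ℝ) / 2 ^ i₀) := by
    refine Set.ncard_lt_ncard ?_ (fin_le K _)
    refine ⟨fun I hI => ⟨hI.1, hI.2.trans ?_⟩, fun hsub => ?_⟩
    · gcongr
      simp
    · have hp : (0 : ℝ) < 2 ^ i₀ := by positivity
      have h1 : I₀ ∈ {I : Ideal (𝓞 K) | I ≠ ⊥ ∧ (Ideal.absNorm I : ℝ) ≤ ((n + 1 : ℕ) : ℝ) / 2 ^ i₀} := by
        refine ⟨hI₀, ?_⟩
        rw [le_div_iff₀ hp, hN]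
        have : q * 2 ^ i₀ ≤ n + 1 := by rw [hn]; exact (mul_comm _ _).le
        exact_mod_cast this
      have h2 := (hsub h1).2
      rw [le_div_iff₀ hp, hN] at h2
      have h3 : q * 2 ^ i₀ ≤ n := by exact_mod_cast h2
      rw [mul_comm] at h3
      omega
  intro he
  unfold D at he
  have hmem : i₀ ∈ Finset.range (m + 1) := Finset.mem_range.2 (by omega)
  rw [← Finset.add_sum_erase _ _ hmem, ← Finset.add_sum_erase _ _ hmem] at he
  have hs : ∑ i ∈ (Finset.range (m + 1)).erase i₀, c i * (Jc K (((n + 1 : ℕ) : ℝ) / 2 ^ i) : ℝ) =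
      ∑ i ∈ (Finset.range (m + 1)).erase i₀, c i * (Jc K ((n : ℝ) / 2 ^ i) : ℝ) :=
    Finset.sum_congr rfl fun i hi => hbig i (Finset.mem_of_mem_erase hi) (Finset.ne_of_mem_erase hi)
  rw [hs, add_left_inj] at he
  have := mul_left_cancel₀ hc he
  have h4 : Jc K (((n + 1 : ℕ) : ℝ) / 2 ^ i₀) = Jc K ((n : ℝ) / 2 ^ i₀) := by exact_mod_cast this
  omega

end SgnMod

open SgnMod in
theorem hSgn (hAvg : StAvg.{u}) : StSgn.{u} := by
  classical
  intro K _ _ m c hci hcn hc1 hc2 x₀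
  by_contra hcon
  push Not at hcon
  obtain ⟨φ, hφc, hφ0, hφ1, hφs, hφ⟩ := hAvg
  obtain ⟨C, hC, hav⟩ := hφ K m c hc1 hc2 2
  -- (a)
  have hzero : ∀ n : ℕ, 1 ≤ n → 2 * x₀ ≤ n → 2 * C < n → D K m c n = 0 := by
    intro n hn1 hn2 hn3
    by_contra hne
    have hnr : (1 : ℝ) ≤ n := by exact_mod_cast hn1
    have hx : x₀ ≤ n := by
      rcases le_or_gt 0 x₀ with h | h <;> linarith
    have hge : 1 ≤ D K m c n := by
      obtain ⟨z, hz⟩ := D_int K m c hci n
      have h0 := hcon n hx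
      rw [hz] at h0 hne ⊢
      have h1 : 0 ≤ z := by exact_mod_cast h0
      have h2 : z ≠ 0 := by exact_mod_cast hne
      have h3 : 1 ≤ z := by omega
      exact_mod_cast h3
    have h1 := lower K φ hφc hφ0 hφ1 hφs m c x₀ hcon n hn1 hn2 hge
    have h2 := (le_abs_self _).trans (hav n hnr)
    have h3 := h1.trans h2
    have hn0 : (0 : ℝ) < n := by linarith
    rw [← div_eq_mul_inv, div_le_div_iff₀ (by linarith) (by positivity)] at h3
    nlinarith
  -- (b)
  have hex : ∃ i, c i ≠ 0 := ⟨_, hcn.choose_spec.2⟩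
  have hi₀m : Nat.find hex ≤ m := (Nat.find_min' hex hcn.choose_spec.2).trans hcn.choose_spec.1
  obtain ⟨B, hB⟩ := exists_nat_gt (max (2 * |x₀|) (2 * C) + 2)
  obtain ⟨q, hq1, hq2, I₀, hI1, hI2⟩ := odd_norm K B
  set i₀ := Nat.find hex with hi₀
  have hpow : q ≤ 2 ^ i₀ * q := Nat.le_mul_of_pos_left q (by positivity)
  have hBr : max (2 * |x₀|) (2 * C) + 2 < (2 ^ i₀ * q : ℕ) := by
    refine hB.trans_le ?_
    exact_mod_cast hq1.trans hpow
  have hpos : 1 ≤ 2 ^ i₀ * q := Nat.mul_pos (by positivity) hq2.pos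
  obtain ⟨n, hn⟩ : ∃ n, n + 1 = 2 ^ i₀ * q := ⟨2 ^ i₀ * q - 1, by omega⟩
  rw [← hn] at hBr
  have hm1 : 2 * |x₀| ≤ max (2 * |x₀|) (2 * C) := le_max_left _ _
  have hm2 : 2 * C ≤ max (2 * |x₀|) (2 * C) := le_max_right _ _
  have hx1 : x₀ ≤ |x₀| := le_abs_self _
  have hx2 : 0 ≤ |x₀| := abs_nonneg _
  push_cast at hBr
  have hn1 : 1 ≤ n := by
    have : (1 : ℝ) ≤ n := by linarith
    exact_mod_cast this
  have e1 : D K m c n = 0 := hzero n hn1 (by linarith) (by linarith)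
  have e2 : D K m c ((n + 1 : ℕ) : ℝ) = 0 :=
    hzero (n + 1) (by omega) (by push_cast; linarith) (by push_cast; linarith)
  exact jump K m c i₀ q hi₀m (Nat.find_spec hex)
    (fun i hi => by
      have := Nat.find_min hex hi
      push Not at this
      exact this) hq2 I₀ hI1 hI2 n hn (e2.trans e1.symm)

end Pool.Agent.Helper27.SC
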