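import Pool.Agent.Helper27.SC.St

set_option autoImplicit false

/-!
# Project SC (MP_f07b9f_nt), module SM: the test function is smooth with compact support
-/

open scoped ContDiff
open NumberField NumberField.mixedEmbedding NumberField.Units NumberField.Units.dirichletUnitTheorem
  NumberField.InfinitePlace

universe u

namespace Pool.Agent.Helper27.SC

section

variable {K : Type u} [Field K] [NumberField K]

open scoped Classical in
private theorem nap_contDiffAt_SM (v : InfinitePlace K) (x : mixedSpace K)
    (hx : normAtPlace v x ≠ 0) : ContDiffAt ℝ ∞ (fun y : mixedSpace K => normAtPlace v y) x := by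
  classical
  rcases isReal_or_isComplex v with hv | hv
  · have h : (fun y : mixedSpace K => normAtPlace v y) = fun y => ‖y.1 ⟨v, hv⟩‖ := by
      funext y
      exact normAtPlace_apply_of_isReal hv y
    rw [normAtPlace_apply_of_isReal hv, norm_ne_zero_iff] at hx
    rw [h]
    refine ContDiffAt.norm ℝ ?_ hx
    fun_prop
  · have h : (fun y : mixedSpace K => normAtPlace v y) = fun y => ‖y.2 ⟨v, hv⟩‖ := by
      funext y
      exact normAtPlace_apply_of_isComplex hv y
    rw [normAtPlace_apply_of_isComplex hv, norm_ne_zero_iff] at hx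
    rw [h]
    refine ContDiffAt.norm ℝ ?_ hx
    fun_prop

open scoped Classical in
private theorem norm_contDiffAt_SM (x : mixedSpace K) (hx : mixedEmbedding.norm x ≠ 0) :
    ContDiffAt ℝ ∞ (fun y : mixedSpace K => mixedEmbedding.norm y) x := by
  classical
  have h : (fun y : mixedSpace K => mixedEmbedding.norm y) =
      fun y => ∏ v, (normAtPlace v y) ^ (mult v) := by
    funext y
    exact mixedEmbedding.norm_apply y
  rw [h]
  refine contDiffAt_prod fun v _ => ?_
  exact (nap_contDiffAt_SM v x (mixedEmbedding.norm_ne_zero_iff.1 hx v)).pow _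

open scoped Classical in
private theorem logMap_contDiffAt_SM (x : mixedSpace K) (hx : mixedEmbedding.norm x ≠ 0) :
    ContDiffAt ℝ ∞ (fun y : mixedSpace K => logMap y) x := by
  classical
  rw [contDiffAt_pi]
  intro v
  have h1 := (nap_contDiffAt_SM v.1 x (mixedEmbedding.norm_ne_zero_iff.1 hx v.1)).log
    (mixedEmbedding.norm_ne_zero_iff.1 hx v.1)
  have h2 := (norm_contDiffAt_SM x hx).log hx
  exact contDiffAt_const.mul (h1.sub (h2.mul contDiffAt_const))

private theorem bound_SM (x : mixedSpace K) (hx : mixedEmbedding.norm x ≠ 0) (L R : ℝ) (hL0 : 0 ≤ L)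
    (hR0 : 0 ≤ R)
    (hL : |Real.log (mixedEmbedding.norm x)| ≤ L) (hR : ∀ v, |logMap x v| ≤ R)
    (v : InfinitePlace K) :
    normAtPlace v x ≤ Real.exp (L + (Module.finrank ℚ K + 1) * (R + L)) := by
  classical
  set n : ℕ := Module.finrank ℚ K with hn
  have hn1 : (1 : ℝ) ≤ n := by
    have : 0 < n := Module.finrank_pos
    exact_mod_cast this
  set M : ℝ := R + L with hM
  have hM0 : 0 ≤ M := by positivity
  have hpos : ∀ v, 0 < normAtPlace v x := fun v =>
    lt_of_le_of_ne (normAtPlace_nonneg v x) (Ne.symm (mixedEmbedding.norm_ne_zero_iff.1 hx v))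
  have hbd : ∀ v : InfinitePlace K, v ≠ w₀ → |Real.log (normAtPlace v x)| ≤ M := by
    intro v hv
    have h1 := hR ⟨v, hv⟩
    rw [logMap_apply] at h1
    have hm : (1 : ℝ) ≤ mult v := by
      have := one_le_mult (w := v)
      exact this
    rw [abs_mul, abs_of_nonneg (by linarith : (0 : ℝ) ≤ mult v)] at h1
    have h2 : |Real.log (normAtPlace v x) - Real.log (mixedEmbedding.norm x) * ((n : ℝ))⁻¹| ≤ R := by
      refine le_trans ?_ h1
      exact le_mul_of_one_le_left (abs_nonneg _) hm
    have h3 : |Real.log (mixedEmbedding.norm x) * ((n : ℝ))⁻¹| ≤ L := by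
      rw [abs_mul]
      have h4 : |((n : ℝ))⁻¹| ≤ 1 := by
        rw [abs_of_nonneg (by positivity)]
        exact inv_le_one_of_one_le₀ hn1
      calc |Real.log (mixedEmbedding.norm x)| * |((n : ℝ))⁻¹| ≤ L * 1 :=
            mul_le_mul hL h4 (abs_nonneg _) hL0
        _ = L := mul_one L
    have h5 := abs_add_le (Real.log (normAtPlace v x) - Real.log (mixedEmbedding.norm x) * ((n : ℝ))⁻¹)
      (Real.log (mixedEmbedding.norm x) * ((n : ℝ))⁻¹)
    rw [sub_add_cancel] at h5
    linarith
  have hsum : Real.log (mixedEmbedding.norm x) = ∑ v, (mult v : ℝ) * Real.log (normAtPlace v x) := by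
    rw [mixedEmbedding.norm_apply, Real.log_prod (fun v _ => pow_ne_zero _ (hpos v).ne')]
    exact Finset.sum_congr rfl fun v _ => Real.log_pow _ _
  have hmult : ∑ v : InfinitePlace K, (mult v : ℝ) = n := by
    have := sum_mult_eq (K := K)
    rw [hn, ← this]
    push_cast
    rfl
  have hle : Real.log (normAtPlace v x) ≤ L + (n + 1) * M := by
    by_cases hv : v = w₀
    · subst hv
      rw [← Finset.add_sum_erase _ _ (Finset.mem_univ (w₀ : InfinitePlace K))] at hsum
      have h6 : |∑ v ∈ Finset.univ.erase (w₀ : InfinitePlace K),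
          (mult v : ℝ) * Real.log (normAtPlace v x)| ≤ n * M := by
        calc |∑ v ∈ Finset.univ.erase (w₀ : InfinitePlace K),
            (mult v : ℝ) * Real.log (normAtPlace v x)|
            ≤ ∑ v ∈ Finset.univ.erase (w₀ : InfinitePlace K),
              |(mult v : ℝ) * Real.log (normAtPlace v x)| := Finset.abs_sum_le_sum_abs _ _
          _ ≤ ∑ v ∈ Finset.univ.erase (w₀ : InfinitePlace K), (mult v : ℝ) * M := by
              refine Finset.sum_le_sum fun v hv => ?_
              rw [abs_mul, abs_of_nonneg (by positivity : (0 : ℝ) ≤ mult v)]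
              exact mul_le_mul_of_nonneg_left (hbd v (Finset.ne_of_mem_erase hv)) (by positivity)
          _ ≤ ∑ v : InfinitePlace K, (mult v : ℝ) * M := by
              refine Finset.sum_le_sum_of_subset_of_nonneg (Finset.erase_subset _ _) ?_
              intro v _ _
              positivity
          _ = n * M := by rw [← Finset.sum_mul, hmult]
      have h7 := abs_le.1 h6
      have h8 := abs_le.1 hL
      have h9 : (mult (w₀ : InfinitePlace K) : ℝ) * Real.log (normAtPlace w₀ x) ≤ L + n * M := by
        linarith
      by_cases h10 : Real.log (normAtPlace w₀ x) ≤ 0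
      · have : 0 ≤ L + (n + 1) * M := by positivity
        linarith
      · have hm : (1 : ℝ) ≤ mult (w₀ : InfinitePlace K) := one_le_mult
        push Not at h10
        have h11 : Real.log (normAtPlace w₀ x) ≤
            (mult (w₀ : InfinitePlace K) : ℝ) * Real.log (normAtPlace w₀ x) :=
          le_mul_of_one_le_left h10.le hm
        nlinarith
    · have h6 := (abs_le.1 (hbd v hv)).2
      have : 0 ≤ L + n * M := by positivity
      linarith
  calc normAtPlace v x = Real.exp (Real.log (normAtPlace v x)) := (Real.exp_log (hpos v)).symm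
    _ ≤ _ := Real.exp_le_exp.2 hle

end

open scoped Classical in
theorem hSm : StSm.{u} := by
  intro K _ _ w η hw hη hηc
  obtain ⟨hw1, a, b, ha, hab, hw2⟩ := hw
  constructor
  · rw [contDiff_iff_contDiffAt]
    intro x
    by_cases hx : mixedEmbedding.norm x = 0
    · have h1 : ∀ᶠ y in nhds x, mixedEmbedding.norm y < a := by
        refine (mixedEmbedding.continuous_norm K).continuousAt.eventually_lt_const ?_
        rw [hx]
        exact ha
      have h2 : tf K w η =ᶠ[nhds x] fun _ => 0 := by
        filter_upwards [h1] with y hy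
        unfold tf
        have : w (mixedEmbedding.norm y) = 0 := by
          by_contra h
          exact absurd (hw2 _ h).1 (not_le.2 hy)
        rw [this, zero_mul]
      exact contDiffAt_const.congr_of_eventuallyEq h2
    · unfold tf
      exact (hw1.contDiffAt.comp x (norm_contDiffAt_SM x hx)).mul
        (hη.contDiffAt.comp x (logMap_contDiffAt_SM x hx))
  · obtain ⟨R, hR⟩ := hηc.isCompact.isBounded.subset_closedBall (0 : logSpace K)
    have hR' : ∀ v, η v ≠ 0 → ∀ i, |v i| ≤ |R| := by
      intro v hv i
      have h1 : v ∈ Metric.closedBall (0 : logSpace K) R := hR (subset_tsupport _ hv)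
      rw [mem_closedBall_zero_iff] at h1
      have h2 := norm_le_pi_norm v i
      rw [Real.norm_eq_abs] at h2
      exact h2.trans (h1.trans (le_abs_self R))
    set L : ℝ := |Real.log a| + |Real.log b| with hL
    refine HasCompactSupport.of_support_subset_isCompact
      (isCompact_closedBall (0 : mixedSpace K) (Real.exp (L + (Module.finrank ℚ K + 1) * (|R| + L)))) ?_
    intro x hx
    have hx' : w (mixedEmbedding.norm x) * η (logMap x) ≠ 0 := hx
    have h1 := left_ne_zero_of_mul hx'
    have h2 := right_ne_zero_of_mul hx'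
    obtain ⟨h3, h4⟩ := hw2 _ h1
    have h5 : 0 < mixedEmbedding.norm x := lt_of_lt_of_le ha h3
    have h6 : |Real.log (mixedEmbedding.norm x)| ≤ L := by
      have h7 : Real.log a ≤ Real.log (mixedEmbedding.norm x) := Real.log_le_log ha h3
      have h8 : Real.log (mixedEmbedding.norm x) ≤ Real.log b := Real.log_le_log h5 h4
      rw [abs_le]
      constructor
      · have := neg_abs_le (Real.log a)
        have := abs_nonneg (Real.log b)
        linarith
      · have := le_abs_self (Real.log b)
        have := abs_nonneg (Real.log a)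
        linarith
    rw [mem_closedBall_zero_iff, norm_eq_sup'_normAtPlace]
    refine Finset.sup'_le _ _ fun v _ => ?_
    exact bound_SM x h5.ne' L |R| (by positivity) (abs_nonneg R) h6 (hR' _ h2) v

end Pool.Agent.Helper27.SC
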