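import Mathlib

set_option autoImplicit false

/-!
# Project SC (MP_f07b9f_nt, SignChanges): statements of the modules

`K` a number field, `J(x)` the number of nonzero ideals of norm `≤ x`.  For integers `c_0, ..., c_m`,
not all `0`, with `Σ c_i = 0`, `Σ c_i 2^{-i} = 0`, the function `D(x) = Σ c_i J(x / 2^i)` is `< 0`
for arbitrarily large `x`.

Module `XXX` is the theorem `hXxx : StXxx` in the file `Pool/Agent/Helper27/SC/M_XXX.lean` (import
this file only, or the file of a module whose theorem is used as a hypothesis: better take the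
`St..` propositions as hypotheses).
-/

open scoped ContDiff nonZeroDivisors
open NumberField MeasureTheory

universe u

namespace Pool.Agent.Helper27.SC

/-- smooth functions with compact support in `(0, ∞)` -/
def Good (w : ℝ → ℝ) : Prop :=
  ContDiff ℝ ∞ w ∧ ∃ a b : ℝ, 0 < a ∧ a < b ∧ ∀ x, w x ≠ 0 → a ≤ x ∧ x ≤ b

/-! ## sums over lattices -/

/-- MODULE ONE (1-dimensional Poisson summation). PROOF: `Σ_j h(j/T) = T Σ_m ĥ(T m)` (Poisson for the
Schwartz function `x ↦ h(x/T)`, `HasCompactSupport.toSchwartzMap`, `SchwartzMap.tsum_eq_tsum_fourier`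
or the `Real.tsum_eq_tsum_fourier...` lemmas; any period), the term `m = 0` is `T ∫ h`, and
`|ĥ(ξ)| ≤ (2π|ξ|)^{-k} ∫ |h^{(k)}|` (`Real.fourier_iteratedDeriv`, norm of a Fourier transform `≤` the
L1 norm), so `C = 2 Σ_{m ≥ 1} (2π m)^{-k}`.  Alternative: Euler-Maclaurin by `k` integrations by
parts. -/
def StOne : Prop := ∀ k : ℕ, 2 ≤ k → ∃ C : ℝ, 0 ≤ C ∧
  ∀ h : ℝ → ℝ, ContDiff ℝ ∞ h → HasCompactSupport h → ∀ T : ℝ, 1 ≤ T →
    |∑' j : ℤ, h (j / T) - T * ∫ s, h s| ≤ C * T ^ (1 - (k : ℤ)) * ∫ s, |iteratedDeriv k h s|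

/-- continuous functions supported in the cube `[-R, R]^n` for which the 1-dimensional estimate of
order `k` holds along every line parallel to a coordinate axis, with one constant `C` -/
def OneDim (n k : ℕ) (R C : ℝ) (f : (Fin n → ℝ) → ℝ) : Prop :=
  Continuous f ∧ (∀ x, f x ≠ 0 → ∀ i, |x i| ≤ R) ∧
    ∀ (i : Fin n) (x : Fin n → ℝ) (T : ℝ), 1 ≤ T →
      |∑' j : ℤ, f (Function.update x i (j / T)) - T * ∫ s, f (Function.update x i s)|
        ≤ C * T ^ (1 - (k : ℤ))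

/-- MODULE DIR. `theorem hDir (hOne : StOne) : StDir`. PROOF: `R` with `tsupport f ⊆ closedBall 0 R`,
`M` a bound of `‖iteratedFDeriv ℝ k f‖` (continuous with compact support). For fixed `i, x` the function
`h s = f (update x i s)`, `update x i s = update x i 0 + s • Pi.single i 1`, is smooth, vanishes for
`|s| > R` and `|iteratedDeriv k h s| ≤ M`, so `∫ |iteratedDeriv k h| ≤ 2 R M`; apply `StOne`. -/
def StDir : Prop := ∀ (n k : ℕ) (f : (Fin n → ℝ) → ℝ), 2 ≤ k → ContDiff ℝ ∞ f →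
  HasCompactSupport f → ∃ R C : ℝ, 0 ≤ R ∧ 0 ≤ C ∧ OneDim n k R C f

/-- MODULE IND (induction on the dimension, no hypotheses). PROOF: `n = 0`: both sides are `f` of the
only point. `n + 1`: `x = (s, y)` (`Fin.cons`, `MeasureTheory.volume_preserving_piFinSuccAbove`,
`(Fin (n+1) → ℤ) ≃ ℤ × (Fin n → ℤ)`). For fixed `y` the hypothesis in the direction `0` gives
`|Σ_j f(j/T, y) - T g(y)| ≤ C T^{1-k}`, `g y = ∫ f(s, y) ds`; sum over the at most `(2 R T + 1)^n`
points `y = m'/T` of the cube: total error `≤ C (2R+1)^n T^{n+1-k}`. The function `g` satisfies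
`OneDim n k R (2 R C)` (for `|s| > R` the integrand vanishes; all sums are finite sums, the range of
`j` is `|j| ≤ R T`; continuity of `g`: `continuous_parametric_integral...` or dominated convergence
with bound `sup |f|` on `[-R, R]`). Fubini: `∫ g = ∫ f`. -/
def StInd : Prop := ∀ (n k : ℕ) (R C : ℝ) (f : (Fin n → ℝ) → ℝ), 0 ≤ R → 0 ≤ C → OneDim n k R C f →
  ∃ C' : ℝ, 0 ≤ C' ∧ ∀ T : ℝ, 1 ≤ T →
    |∑' m : Fin n → ℤ, f (fun i => (m i : ℝ) / T) - T ^ n * ∫ x, f x| ≤ C' * T ^ ((n : ℤ) - k)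

/-- MODULE LAT (general lattices). `theorem hLat (hDir : StDir) (hInd : StInd) : StLat`. PROOF: take a
`ℤ`-basis of `L` (`Module.Free.chooseBasis`, reindexed by `Fin n`) and the `ℝ`-basis
`b.ofZLatticeBasis ℝ L`; `e : E ≃L[ℝ] (Fin n → ℝ)` its coordinates; `f ∘ e.symm` is smooth with compact
support, `L ≃ (Fin n → ℤ)`, `∫ f ∘ e.symm = 0` because `μ.map e` is a Haar measure, a multiple of
`volume` (`isAddHaarMeasure_eq_smul` / `addHaarMeasure_unique`). Use `k = n + A + 2`, so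
`T^{n-k} ≤ (T^A)^{-1}` for `T ≥ 1`. -/
def StLat : Prop := ∀ (E : Type u) [NormedAddCommGroup E] [NormedSpace ℝ E] [FiniteDimensional ℝ E]
  [MeasurableSpace E] [BorelSpace E] (L : Submodule ℤ E) [DiscreteTopology L] [IsZLattice ℝ L]
  (μ : Measure E) [μ.IsAddHaarMeasure] (f : E → ℝ), ContDiff ℝ ∞ f → HasCompactSupport f →
  ∫ x, f x ∂μ = 0 → ∀ A : ℕ, ∃ C : ℝ, 0 ≤ C ∧ ∀ T : ℝ, 1 ≤ T →
    |∑' ℓ : L, f (T⁻¹ • (ℓ : E))| ≤ C * (T ^ A)⁻¹

/-- MODULE PU (smooth partition of unity for a lattice, no hypotheses). PROOF: the fundamental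
parallelepiped is bounded, in `ball 0 r`; `η₀` a smooth bump (`ContDiffBump`, available in finite
dimensional spaces), `= 1` on `closedBall 0 r`, support in `ball 0 (r+1)`. `S v = Σ_ℓ η₀(ℓ + v)` is a
locally finite sum (`L` discrete), so smooth, `≥ 1` everywhere (every `v` is in `-ℓ + closedBall 0 r` for
some `ℓ`: `ZSpan`/`ZLattice` fundamental domain), and `L`-periodic; `η = η₀ / S`. -/
def StPU : Prop := ∀ (V : Type u) [NormedAddCommGroup V] [NormedSpace ℝ V] [FiniteDimensional ℝ V]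
  (L : Submodule ℤ V) [DiscreteTopology L] [IsZLattice ℝ L],
  ∃ η : V → ℝ, ContDiff ℝ ∞ η ∧ HasCompactSupport η ∧ ∀ v, ∑' ℓ : L, η ((ℓ : V) + v) = 1

/-! ## number fields -/

section
open NumberField.mixedEmbedding NumberField.Units NumberField.Units.dirichletUnitTheorem

/-- the test function on the mixed space -/
noncomputable def tf (K : Type u) [Field K] [NumberField K] (w : ℝ → ℝ) (η : logSpace K → ℝ)
    (x : mixedSpace K) : ℝ :=
  w (mixedEmbedding.norm x) * η (logMap x)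

open scoped Classical in
/-- MODULE SM (the test function is smooth with compact support, no hypotheses). PROOF: support: `tf x ≠ 0`
gives `a ≤ norm x ≤ b` and `|logMap x v| ≤ R` for all `v ≠ w₀`, so `normAtPlace v x` is in a fixed interval
`[m, M]`, `m > 0`, for `v ≠ w₀`, and for `v = w₀` too by `norm x = ∏ normAtPlace^mult`
(`mixedEmbedding.norm_apply`); `‖x‖ = sup normAtPlace` (`norm_eq_sup'_normAtPlace`), so the support is
bounded. Smooth: near a point with `norm x < a` (`continuous_norm`) the function vanishes; near a point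
with `norm x ≠ 0` all `normAtPlace v x ≠ 0` (`norm_ne_zero_iff`) and `normAtPlace v` (`‖x.1 v‖` or
`‖x.2 v‖`, `ContDiffAt.norm ℝ`), `norm`, `Real.log` of them, `logMap` are smooth there. -/
def StSm : Prop := ∀ (K : Type u) [Field K] [NumberField K] (w : ℝ → ℝ) (η : logSpace K → ℝ),
  Good w → ContDiff ℝ ∞ η → HasCompactSupport η →
    ContDiff ℝ ∞ (tf K w η) ∧ HasCompactSupport (tf K w η)

open scoped Classical in
/-- MODULE INT (integral of the test function). `theorem hInt (hSm : StSm) : StInt`. PROOF: let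
`G w = ∫ tf w η` (linear in `w` on `Good` functions). Scaling `x ↦ t^{1/n} x` (`n = finrank ℚ K`, real
`t > 0`; `Measure.integral_comp_smul`, `norm_smul`, `logMap_real_smul`) gives
`G (w (·/t)) = t G w`. Put `u x = (∫_0^x w) / x` (`Good`, since `∫ w = 0`; it is `0` near `0`), so
`w = u + x u'`. Differentiating `G (u (·/t)) = t G u` at `t = 1` under the integral
(`hasDerivAt_integral_of_dominated_loc_of_deriv_le`; everything has compact support) gives
`G (-x u') = G u`, so `G w = G u + G (x u') = 0`. -/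
def StInt : Prop := ∀ (K : Type u) [Field K] [NumberField K] (w : ℝ → ℝ) (η : logSpace K → ℝ),
  Good w → ContDiff ℝ ∞ η → HasCompactSupport η → ∫ u, w u = 0 →
    ∫ x : mixedSpace K, tf K w η x = 0

open scoped Classical in
/-- MODULE ORB (orbits of units, no hypotheses). PROOF: every `x` of the lattice with `norm x ≠ 0` is
`u_ℓ • a` for exactly one pair (`ℓ ∈ unitLattice K`, `a ∈ idealSet K J`), where `u_ℓ` is a chosen unit with
`logEmbedding u_ℓ = ℓ` (`ZSpan.exist_unique_vadd_mem_fundamentalDomain` as in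
`exists_unit_smul_mem`; units map the lattice of the ideal `J` to itself; `mem_idealSet`). The terms with
`norm x = 0` vanish. `norm (u • a) = norm a`, `logMap (u_ℓ • a) = ℓ + logMap a`. So the left side is
`Σ_a Σ_ℓ g(norm a) η(ℓ + logMap a) = Σ_a g(norm a)`. Only finitely many terms are not zero (the nonzero
terms have bounded `x`: see the support argument of MODULE SM; only finitely many `a ∈ idealSet K J` have
`norm a ≤ b`: `card_isPrincipal_dvd_norm_le` or boundedness of `normLeOne`). -/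
def StOrb : Prop := ∀ (K : Type u) [Field K] [NumberField K] (J : (Ideal (𝓞 K))⁰) (g : ℝ → ℝ)
  (a b : ℝ) (η : logSpace K → ℝ), 0 < a → (∀ x, g x ≠ 0 → a ≤ x ∧ x ≤ b) →
  Continuous η → HasCompactSupport η → (∀ v, ∑' ℓ : unitLattice K, η ((ℓ : logSpace K) + v) = 1) →
    ∑' x : mixedEmbedding.idealLattice K (FractionalIdeal.mk0 K J), tf K g η (x : mixedSpace K) =
      ∑' x : fundamentalCone.idealSet K J, g (mixedEmbedding.norm (x : mixedSpace K))

open scoped Classical in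
/-- MODULE CLS (ideal classes, no hypotheses). PROOF: sum over the value `n` of the norm (finitely many
`n ≤ b` matter). For a class `c` and `n` the ideals `I` of class `c` and norm `n` correspond to the
principal ideals `I J_c` divisible by `J_c` of norm `n N(J_c)` (as in
`tendsto_norm_le_and_mk_eq_div_atTop_aux₁`), times the torsion to the `x ∈ idealSet K (J c)` with
`norm x = n N(J_c)` (`fundamentalCone.idealSetEquivNorm`); every `x ∈ idealSet K (J c)` has
`norm x / N(J_c)` a positive integer. -/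
def StCls : Prop := ∀ (K : Type u) [Field K] [NumberField K] (J : ClassGroup (𝓞 K) → (Ideal (𝓞 K))⁰),
  (∀ c, ClassGroup.mk0 (J c) = c⁻¹) → ∀ (g : ℝ → ℝ) (a b : ℝ), 0 < a →
  (∀ x, g x ≠ 0 → a ≤ x ∧ x ≤ b) →
    (torsionOrder K : ℝ) * ∑' I : (Ideal (𝓞 K))⁰, g (Ideal.absNorm (I : Ideal (𝓞 K))) =
      ∑ c : ClassGroup (𝓞 K), ∑' x : fundamentalCone.idealSet K (J c),
        g (mixedEmbedding.norm (x : mixedSpace K) / Ideal.absNorm (J c : Ideal (𝓞 K)))

open scoped Classical in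
/-- MODULE MAIN (smooth sums over ideals).
`theorem hMain (hLat : StLat.{u}) (hPU : StPU.{u}) (hSm : StSm.{u}) (hInt : StInt.{u})
(hOrb : StOrb.{u}) (hCls : StCls.{u}) : StMain.{u}`. PROOF: `J` with `mk0 (J c) = c⁻¹`
(`ClassGroup.mk0_surjective`), `η` from `StPU` for `unitLattice K`. For `Y ≥ 1` apply `StCls` to
`g x = w (x / Y)` and `StOrb` to `g x = w (x / (N(J c) Y))`; with `T^n = N(J c) Y` (`n = finrank ℚ K`,
`T = (N(J c) Y)^{1/n} ≥ 1`) one has `tf g η x = tf w η (T⁻¹ • x)` for all `x` (`norm_smul`,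
`logMap_real_smul`; both are `0` if `norm x = 0`), so `StLat` (with `n A` in place of `A`, `μ = volume`)
bounds every class. Divide by `torsionOrder K ≥ 1`. -/
def StMain : Prop := ∀ (K : Type u) [Field K] [NumberField K] (w : ℝ → ℝ), Good w → ∫ u, w u = 0 →
  ∀ A : ℕ, ∃ C : ℝ, 0 ≤ C ∧ ∀ Y : ℝ, 1 ≤ Y →
    |∑' I : (Ideal (𝓞 K))⁰, w (Ideal.absNorm (I : Ideal (𝓞 K)) / Y)| ≤ C * (Y ^ A)⁻¹

end

/-! ## sign changes -/

/-- number of nonzero ideals of norm `≤ x` -/
noncomputable def Jc (K : Type u) [Field K] [NumberField K] (x : ℝ) : ℕ :=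
  {I : Ideal (𝓞 K) | I ≠ ⊥ ∧ (Ideal.absNorm I : ℝ) ≤ x}.ncard

/-- `D(x) = Σ_{i ≤ m} c_i J(x / 2^i)` -/
noncomputable def D (K : Type u) [Field K] [NumberField K] (m : ℕ) (c : ℕ → ℝ) (x : ℝ) : ℝ :=
  ∑ i ∈ Finset.range (m + 1), c i * Jc K (x / 2 ^ i)

/-- MODULE AVG (smooth average of `D`). `theorem hAvg (hMain : StMain.{u}) : StAvg.{u}`. PROOF: `φ` a
smooth bump, `= 1` on `[1, 2]`, support in `[1/2, 4]`, `W v = ∫_v^∞ φ(u)/u du` (smooth, constant `κ` for
`v ≤ 1/2`, `0` for `v ≥ 4`), `w v = Σ_i c_i W(2^i v)`: smooth, `0` for `v ≥ 4`, `κ Σ c_i = 0` for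
`v ≤ 2^{-m-1}`, so `Good`, and `∫ w = Σ c_i 2^{-i} ∫_0^∞ W = 0` (only `v > 0` matters: `w = 0` for `v ≤ 0`).
`J(y/2^i) = Σ_I 1[2^i N(I) ≤ y]` and `∫_{2^i N(I)}^∞ φ(y/Y)/y dy = W(2^i N(I)/Y)`, so the integral is
`Σ_I w(N(I)/Y)` (finite sums: only `N(I) ≤ 4 Y`). -/
def StAvg : Prop := ∃ φ : ℝ → ℝ, Continuous φ ∧ (∀ u, 0 ≤ φ u) ∧ (∀ u, 1 ≤ u → u ≤ 2 → φ u = 1) ∧
  (∀ u, φ u ≠ 0 → 1 / 2 ≤ u ∧ u ≤ 4) ∧
  ∀ (K : Type u) [Field K] [NumberField K] (m : ℕ) (c : ℕ → ℝ),
    ∑ i ∈ Finset.range (m + 1), c i = 0 → ∑ i ∈ Finset.range (m + 1), c i / 2 ^ i = 0 →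
    ∀ A : ℕ, ∃ C : ℝ, 0 ≤ C ∧ ∀ Y : ℝ, 1 ≤ Y →
      |∫ y in Set.Ioi (0 : ℝ), D K m c y * φ (y / Y) / y| ≤ C * (Y ^ A)⁻¹

/-- MODULE SGN (sign changes). `theorem hSgn (hAvg : StAvg.{u}) : StSgn.{u}`. PROOF: suppose `D ≥ 0` on
`[x₀, ∞)`. (a) `D n = 0` for all large integers `n`: otherwise `D n ≥ 1` (integer), `D y = D n` on
`[n, n+1)` (`J(y/2^i)` depends only on `⌊y⌋`), and for `n ≥ 2 x₀` the average with `Y = n`, `A = 2`, is
`≥ ∫_n^{n+1} dy/y ≥ 1/(n+1)`, but `≤ C/n^2`. (b) contradiction: `i₀` minimal with `c_{i₀} ≠ 0`, `q` an odd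
norm of an ideal, arbitrarily large (a power of a prime ideal above `3`), `n = 2^{i₀} q`: in
`D n - D (n-1) = Σ c_i #{I : (n-1)/2^i < N(I) ≤ n/2^i}` the terms `i < i₀` have `c_i = 0`, the terms
`i > i₀` have empty sets (`2^i N(I) = n` impossible), the term `i₀` is `c_{i₀} #{N(I) = q} ≠ 0`. -/
def StSgn : Prop := ∀ (K : Type u) [Field K] [NumberField K] (m : ℕ) (c : ℕ → ℝ),
  (∀ i, ∃ z : ℤ, c i = z) → (∃ i, i ≤ m ∧ c i ≠ 0) →
  ∑ i ∈ Finset.range (m + 1), c i = 0 → ∑ i ∈ Finset.range (m + 1), c i / 2 ^ i = 0 →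
    ∀ x₀ : ℝ, ∃ x, x₀ ≤ x ∧ D K m c x < 0

end Pool.Agent.Helper27.SC
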