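import Pool.Agent.Helper27.SC.St
import Pool.Agent.Results.MP_f07b9f_nt.Extremal

set_option autoImplicit false

/-!
# Project SC: the profile of a maximal intersecting family
-/

open NumberField
open Pool.Agent.Results.MP_f07b9f_nt.Extremal (P2 MaxInt fam)

universe u

namespace Pool.Agent.Helper27.SC

/-- number of members of size `j` -/
noncomputable def prof {K : Type u} [Field K] [NumberField K] (H : Set (Set (Ideal (𝓞 K)))) (j : ℕ) : ℕ :=
  {S ∈ H | S.ncard = j}.ncard

/-- coefficients of the size of `fam K H x` -/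
noncomputable def coef {K : Type u} [Field K] [NumberField K] (H : Set (Set (Ideal (𝓞 K)))) (i : ℕ) : ℝ :=
  ∑ j ∈ Finset.range (i + 1),
    (-1) ^ (i - j) * (((P2 K).ncard - j).choose (i - j) : ℝ) * prof H j

/-- MODULE PROF. PROOF: `k = (P2 K).ncard`. (1): group the formula (2) of
`Pool.Agent.Results.MP_f07b9f_nt.Extremal.result` (or `part2`, with `J(y) = Extremal.Jc K y`, the same
number as `SC.Jc K y`) by `|S|` and `i = |S| + j`. (2), (3): `Σ_i coef H i z^i = Σ_{S ∈ H} z^|S| (1-z)^{k-|S|}`;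
at `z = 1` only `S = P2 K` counts, and it is in `H` because `∅` is not (`∅ ∩ ∅` is empty); at `z = 1/2` the
sum is `|H| / 2^k`, and `|H| = 2^{k-1}` since of two complementary subsets of `P2 K` exactly one is in `H`.
(4): let `j` be minimal with `prof H j ≠ prof H' j`; then `coef H j - coef H' j = prof H j - prof H' j`. -/
def StProf : Prop := ∀ (K : Type u) [Field K] [NumberField K] (_ : (P2 K).Nonempty)
  (H : Set (Set (Ideal (𝓞 K)))) (_ : MaxInt K H),
  (∀ x : ℝ, 0 ≤ x → ((fam K H x).ncard : ℝ) = D K (P2 K).ncard (coef H) x) ∧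
  ∑ i ∈ Finset.range ((P2 K).ncard + 1), coef H i = 1 ∧
  ∑ i ∈ Finset.range ((P2 K).ncard + 1), coef H i / 2 ^ i = 1 / 2 ∧
  ∀ H' : Set (Set (Ideal (𝓞 K))), MaxInt K H' → (∃ j, prof H j ≠ prof H' j) →
    ∃ i, i ≤ (P2 K).ncard ∧ coef H i ≠ coef H' i

end Pool.Agent.Helper27.SC
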